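import Mathlib

set_option autoImplicit false

namespace Pool.Agent.Helper64.Iso

open Matrix Finset

section Abstract

variable {ι : Type} [Fintype ι] [DecidableEq ι]

/-- linear combination of a family of matrices -/
noncomputable def comb {X : Type} [Fintype X] (C : ι → Matrix X X ℝ) (a : ι → ℝ) :
    Matrix X X ℝ := ∑ i, a i • C i

variable {X : Type} [Fintype X] [DecidableEq X] (C : ι → Matrix X X ℝ)

omit [DecidableEq ι] [DecidableEq X] in
lemma comb_add (a b : ι → ℝ) : comb C (a + b) = comb C a + comb C b := by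
  simp [comb, add_smul, sum_add_distrib]

omit [DecidableEq ι] [DecidableEq X] in
lemma comb_smul (t : ℝ) (a : ι → ℝ) : comb C (t • a) = t • comb C a := by
  simp [comb, mul_smul, smul_sum]

omit [DecidableEq ι] [DecidableEq X] in
lemma comb_zero : comb C 0 = 0 := by
  simp [comb]

omit [DecidableEq X] in
lemma comb_single (i : ι) : comb C (Pi.single i 1) = C i := by
  simp [comb, Pi.single_apply, ite_smul]

/-- support contained in `S` -/
def Supp (S : Finset ι) (a : ι → ℝ) : Prop := ∀ i, i ∉ S → a i = 0

omit [Fintype ι] [DecidableEq ι] in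
lemma Supp.add {S : Finset ι} {a b : ι → ℝ} (ha : Supp S a) (hb : Supp S b) :
    Supp S (a + b) := fun i hi => by simp [ha i hi, hb i hi]

omit [Fintype ι] [DecidableEq ι] in
lemma Supp.smul {S : Finset ι} {a : ι → ℝ} (t : ℝ) (ha : Supp S a) :
    Supp S (t • a) := fun i hi => by simp [ha i hi]

omit [Fintype ι] [DecidableEq ι] in
lemma Supp.sum {S : Finset ι} {κ : Type} (T : Finset κ) (f : κ → ι → ℝ)
    (hf : ∀ k ∈ T, Supp S (f k)) : Supp S (∑ k ∈ T, f k) := fun i hi => by
  rw [Finset.sum_apply]
  exact Finset.sum_eq_zero fun k hk => hf k hk i hi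

/-- The structural hypotheses on the family `C`. -/
structure Good (sz : ι → ℕ) (C : ι → Matrix X X ℝ) : Prop where
  symm : ∀ i, (C i)ᵀ = C i
  ideal : ∀ i j, ∃ c : ι → ℝ, (∀ l, c l ≠ 0 → l = i ∨ sz l < sz i) ∧ C i * C j = comb C c

/-- down-closed sets of indices -/
def Down (sz : ι → ℕ) (S : Finset ι) : Prop := ∀ i ∈ S, ∀ j, sz j < sz i → j ∈ S

variable {C} {sz : ι → ℕ}

omit [DecidableEq ι] [DecidableEq X] in
lemma comb_symm (hC : Good sz C) (a : ι → ℝ) : (comb C a)ᵀ = comb C a := by
  simp [comb, transpose_sum, hC.symm]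

omit [DecidableEq ι] [DecidableEq X] in
lemma comm_gen (hC : Good sz C) (i j : ι) : C i * C j = C j * C i := by
  obtain ⟨c, -, h⟩ := hC.ideal i j
  have h1 : (C i * C j)ᵀ = C i * C j := by rw [h, comb_symm hC]
  rw [transpose_mul, hC.symm, hC.symm] at h1
  exact h1.symm

omit [DecidableEq ι] [DecidableEq X] in
lemma comm_comb (hC : Good sz C) (a b : ι → ℝ) : comb C a * comb C b = comb C b * comb C a := by
  simp only [comb, Matrix.sum_mul, Matrix.mul_sum]
  rw [Finset.sum_comm]
  refine Finset.sum_congr rfl fun i _ => Finset.sum_congr rfl fun j _ => ?_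
  simp only [Matrix.smul_mul, Matrix.mul_smul]
  rw [comm_gen hC, smul_comm]

omit [DecidableEq ι] [DecidableEq X] in
/-- ideal property for down-closed sets -/
lemma ideal_comb (hC : Good sz C) {S : Finset ι} (hS : Down sz S) (a b : ι → ℝ)
    (ha : Supp S a) : ∃ c : ι → ℝ, Supp S c ∧ comb C a * comb C b = comb C c := by
  choose f hf1 hf2 using hC.ideal
  refine ⟨∑ i, ∑ j, (a i * b j) • f i j, ?_, ?_⟩
  · refine Supp.sum _ _ fun i _ => Supp.sum _ _ fun j _ => ?_
    intro l hl
    by_cases hi : i ∈ S
    · have : f i j l = 0 := by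
        by_contra hne
        rcases hf1 i j l hne with rfl | h
        · exact hl hi
        · exact hl (hS i hi l h)
      simp [this]
    · simp [ha i hi]
  · have hlin : ∀ (T : Finset ι) (g : ι → ι → ℝ), comb C (∑ i ∈ T, g i) = ∑ i ∈ T, comb C (g i) := by
      intro T g
      classical
      induction T using Finset.induction_on with
      | empty => simp [comb_zero]
      | insert x T hx ih => rw [Finset.sum_insert hx, Finset.sum_insert hx, comb_add, ih]
    rw [hlin]
    simp_rw [hlin, comb_smul, ← hf2]
    simp only [comb, Matrix.sum_mul, Matrix.mul_sum, Matrix.smul_mul, Matrix.mul_smul]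
    rw [Finset.sum_comm]
    simp only [Finset.smul_sum, smul_smul]
    refine Finset.sum_congr rfl fun i _ => Finset.sum_congr rfl fun j _ => ?_
    rw [mul_comm]

omit [DecidableEq X] in
lemma trace_sq_eq_zero {M : Matrix X X ℝ} (hM : Mᵀ = M) (h : trace (M * M) = 0) : M = 0 := by
  have h1 : trace (Mᴴ * M) = 0 := by
    rw [conjTranspose_eq_transpose_of_trivial, hM, h]
  exact Matrix.trace_conjTranspose_mul_self_eq_zero_iff.mp h1

omit [DecidableEq X] [DecidableEq ι] in
/-- Orthogonal projection with respect to the trace form. -/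
lemma exists_orth (hC : Good sz C) (S : Finset ι) (e : ι → ℝ) :
    ∃ v : ι → ℝ, Supp S v ∧ ∀ w, Supp S w → trace (comb C (e + v) * comb C w) = 0 := by
  classical
  -- the Euclidean space of matrices
  let F : (ι → ℝ) →ₗ[ℝ] EuclideanSpace ℝ (X × X) :=
    { toFun := fun a => WithLp.toLp 2 (fun p : X × X => comb C a p.1 p.2)
      map_add' := by
        intro a b
        ext p
        simp [comb_add]
      map_smul' := by
        intro t a
        ext p
        simp [comb_smul] }
  let V : Submodule ℝ (ι → ℝ) :=
    { carrier := {a | Supp S a}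
      add_mem' := fun ha hb => ha.add hb
      zero_mem' := fun i _ => rfl
      smul_mem' := fun t a ha => ha.smul t }
  have hinner : ∀ a b, inner ℝ (F a) (F b) = trace (comb C a * comb C b) := by
    intro a b
    rw [PiLp.inner_apply]
    simp only [F, LinearMap.coe_mk, AddHom.coe_mk]
    rw [Fintype.sum_prod_type]
    simp only [trace, diag_apply, mul_apply]
    refine Finset.sum_congr rfl fun x _ => Finset.sum_congr rfl fun y _ => ?_
    have h1 : comb C b x y = comb C b y x := by
      conv_lhs => rw [← comb_symm hC b]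
      rfl
    rw [real_inner_comm]
    simp only [RCLike.inner_apply, conj_trivial]
    rw [h1]
    try ring
  obtain ⟨y, hy, z, hz, hyz⟩ := (V.map F).exists_add_mem_mem_orthogonal (F e)
  obtain ⟨v, hv, rfl⟩ := Submodule.mem_map.mp hy
  refine ⟨-v, ?_, ?_⟩
  · exact V.neg_mem hv
  · intro w hw
    rw [← hinner, map_add, map_neg, hyz]
    have h2 : F v + z + -F v = z := by abel
    rw [h2]
    have h3 := (Submodule.mem_orthogonal' _ _).mp hz (F w) (Submodule.mem_map_of_mem hw)
    exact h3

end Abstract

section Main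

variable {ι : Type} [Fintype ι] [DecidableEq ι] {X X' : Type} [Fintype X] [DecidableEq X]
  [Fintype X'] [DecidableEq X'] {C : ι → Matrix X X ℝ} {C' : ι → Matrix X' X' ℝ} {sz : ι → ℕ}

omit [DecidableEq X] in
/-- Facts about the new orthogonal element. -/
lemma new_element (hC : Good sz C) {S₀ : Finset ι} (hS₀ : Down sz S₀) {κ : ι}
    (hS : Down sz (insert κ S₀)) (u v : ι → ℝ) (hv : Supp S₀ v)
    (hu : u = Pi.single κ 1 + v)
    (horth : ∀ w, Supp S₀ w → trace (comb C u * comb C w) = 0) (hκ : κ ∉ S₀) :
    (∀ w, Supp S₀ w → comb C u * comb C w = 0) ∧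
    ∃ α : ℝ, comb C u * comb C u = α • comb C u := by
  have h1 : ∀ w, Supp S₀ w → comb C u * comb C w = 0 := by
    intro w hw
    obtain ⟨z, hz, hz'⟩ := ideal_comb hC hS₀ w u hw
    rw [comm_comb hC] at hz'
    obtain ⟨y, hy, hy'⟩ := ideal_comb hC hS₀ w z hw
    rw [hz']
    apply trace_sq_eq_zero (comb_symm hC z)
    calc trace (comb C z * comb C z) = trace (comb C u * comb C w * comb C z) := by rw [hz']
      _ = trace (comb C u * comb C y) := by rw [mul_assoc, hy']
      _ = 0 := horth y hy
  refine ⟨h1, ?_⟩
  have hus : Supp (insert κ S₀) u := by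
    intro i hi
    rw [Finset.mem_insert, not_or] at hi
    rw [hu, Pi.add_apply, hv i hi.2, Pi.single_eq_of_ne hi.1, add_zero]
  obtain ⟨s, hs, hs'⟩ := ideal_comb hC hS u u hus
  set w := s - (s κ) • u with hw
  have huκ : u κ = 1 := by
    rw [hu, Pi.add_apply, hv κ hκ, Pi.single_eq_same, add_zero]
  have hwS : Supp S₀ w := by
    intro i hi
    by_cases hik : i = κ
    · subst hik
      simp [hw, huκ]
    · have : i ∉ insert κ S₀ := by
        rw [Finset.mem_insert, not_or]
        exact ⟨hik, hi⟩
      simp [hw, hs i this, hus i this]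
  have hsw : s = (s κ) • u + w := by
    rw [hw]; abel
  have h2 : comb C u * comb C u = (s κ) • comb C u + comb C w := by
    rw [hs']
    conv_lhs => rw [hsw]
    rw [comb_add, comb_smul]
  have h3 : comb C w * comb C w = 0 := by
    have h4 : comb C w = comb C u * comb C u - (s κ) • comb C u := by rw [h2]; abel
    have h5 : comb C w * comb C w = (comb C u * comb C u - (s κ) • comb C u) * comb C w := by
      rw [← h4]
    rw [h5, sub_mul, mul_assoc, h1 w hwS, mul_zero, Matrix.smul_mul, h1 w hwS, smul_zero, sub_zero]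
  have h4 : comb C w = 0 := by
    apply trace_sq_eq_zero (comb_symm hC w)
    rw [h3, trace_zero]
  exact ⟨s κ, by rw [h2, h4, add_zero]⟩

/-- Common structure constants. -/
lemma common_product (hC : Good sz C) (hC' : Good sz C')
    (htr : ∀ i, trace (C i) = trace (C' i))
    (hgram : ∀ i j, trace (C i * C j) = trace (C' i * C' j)) :
    ∀ (n : ℕ) (S : Finset ι), S.card = n → Down sz S → ∀ a b : ι → ℝ, Supp S a → Supp S b →
      ∃ c : ι → ℝ, Supp S c ∧ comb C a * comb C b = comb C c ∧
        comb C' a * comb C' b = comb C' c := by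
  have htr' : ∀ a : ι → ℝ, trace (comb C a) = trace (comb C' a) := by
    intro a
    simp only [comb, trace_sum, trace_smul, htr]
  have hgram' : ∀ a b : ι → ℝ, trace (comb C a * comb C b) = trace (comb C' a * comb C' b) := by
    intro a b
    simp only [comb, Matrix.sum_mul, Matrix.mul_sum, Matrix.smul_mul, Matrix.mul_smul, trace_sum,
      trace_smul, hgram]
  intro n
  induction n with
  | zero =>
    intro S hS _ a b ha hb
    rw [Finset.card_eq_zero] at hS
    subst hS
    have ha0 : a = 0 := funext fun i => ha i (Finset.notMem_empty i)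
    refine ⟨0, fun i _ => rfl, ?_, ?_⟩
    · rw [ha0, comb_zero, zero_mul]
    · rw [ha0, comb_zero, zero_mul]
  | succ n ih =>
    intro S hS hdown a b ha hb
    have hne : S.Nonempty := by
      rw [← Finset.card_pos, hS]
      omega
    obtain ⟨κ, hκS, hmax⟩ := Finset.exists_max_image S sz hne
    set S₀ := S.erase κ with hS₀
    have hκ : κ ∉ S₀ := Finset.notMem_erase κ S
    have hins : insert κ S₀ = S := Finset.insert_erase hκS
    have hdown₀ : Down sz S₀ := by
      intro i hi j hj
      rw [hS₀, Finset.mem_erase] at hi ⊢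
      refine ⟨?_, hdown i hi.2 j hj⟩
      rintro rfl
      have := hmax i hi.2
      omega
    have hcard₀ : S₀.card = n := by
      rw [hS₀, Finset.card_erase_of_mem hκS, hS]
      rfl
    obtain ⟨v, hv, horth⟩ := exists_orth hC S₀ (Pi.single κ 1)
    set u : ι → ℝ := Pi.single κ 1 + v with hu
    have horth' : ∀ w, Supp S₀ w → trace (comb C' u * comb C' w) = 0 := by
      intro w hw
      rw [← hgram']
      exact horth w hw
    obtain ⟨h1, α, hα⟩ := new_element hC hdown₀ (by rw [hins]; exact hdown) u v hv hu horth hκ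
    obtain ⟨h1', α', hα'⟩ := new_element hC' hdown₀ (by rw [hins]; exact hdown) u v hv hu horth' hκ
    have hαα : ∃ β : ℝ, comb C u * comb C u = β • comb C u ∧
        comb C' u * comb C' u = β • comb C' u := by
      by_cases hl : trace (comb C u) = 0
      · have h0 : comb C u = 0 := by
          apply trace_sq_eq_zero (comb_symm hC u)
          rw [hα, trace_smul, hl, smul_zero]
        have h0' : comb C' u = 0 := by
          apply trace_sq_eq_zero (comb_symm hC' u)
          rw [← hgram', hα, trace_smul, hl, smul_zero]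
        exact ⟨0, by rw [h0]; simp, by rw [h0']; simp⟩
      · refine ⟨α, hα, ?_⟩
        have h2 : α * trace (comb C u) = α' * trace (comb C' u) := by
          have h3 := congrArg trace hα
          have h4 := congrArg trace hα'
          rw [trace_smul, smul_eq_mul] at h3 h4
          rw [← h3, ← h4, hgram']
        rw [← htr'] at h2
        have h3 := mul_right_cancel₀ hl h2
        rw [h3, hα']
    obtain ⟨β, hβ, hβ'⟩ := hαα
    have huκ : u κ = 1 := by
      rw [hu, Pi.add_apply, hv κ hκ, Pi.single_eq_same, add_zero]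
    have huS : ∀ i, i ∉ S → u i = 0 := by
      intro i hi
      have h2 : i ≠ κ := by rintro rfl; exact hi hκS
      have h3 : i ∉ S₀ := fun h => hi (Finset.mem_of_mem_erase h)
      rw [hu, Pi.add_apply, hv i h3, Pi.single_eq_of_ne h2, add_zero]
    have hdec : ∀ a : ι → ℝ, Supp S a → ∃ w, Supp S₀ w ∧ a = (a κ) • u + w := by
      intro a ha
      refine ⟨a - (a κ) • u, ?_, by abel⟩
      intro i hi
      by_cases hik : i = κ
      · subst hik
        simp [huκ]
      · have : i ∉ S := fun h => hi (by rw [hS₀, Finset.mem_erase]; exact ⟨hik, h⟩)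
        simp [ha i this, huS i this]
    obtain ⟨w, hw, haw⟩ := hdec a ha
    obtain ⟨w', hw', hbw⟩ := hdec b hb
    obtain ⟨c, hc, hcc, hcc'⟩ := ih S₀ hcard₀ hdown₀ w w' hw hw'
    refine ⟨(a κ * b κ * β) • u + c, ?_, ?_, ?_⟩
    · intro i hi
      have h3 : i ∉ S₀ := fun h => hi (Finset.mem_of_mem_erase h)
      simp [huS i hi, hc i h3]
    · have e1 := h1 w' hw'
      have e2 : comb C w * comb C u = 0 := by rw [comm_comb hC]; exact h1 w hw
      conv_lhs => rw [haw, hbw]
      simp only [comb_add, comb_smul, add_mul, mul_add, Matrix.smul_mul, Matrix.mul_smul, e1, e2,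
        hβ, hcc, smul_zero, add_zero, zero_add, smul_smul]
      congr 2
      ring
    · have e1 := h1' w' hw'
      have e2 : comb C' w * comb C' u = 0 := by rw [comm_comb hC']; exact h1' w hw
      conv_lhs => rw [haw, hbw]
      simp only [comb_add, comb_smul, add_mul, mul_add, Matrix.smul_mul, Matrix.mul_smul, e1, e2,
        hβ', hcc', smul_zero, add_zero, zero_add, smul_smul]
      congr 2
      ring

/-- Main abstract statement: the traces of all powers agree. -/
theorem trace_pow_eq (hC : Good sz C) (hC' : Good sz C')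
    (htr : ∀ i, trace (C i) = trace (C' i))
    (hgram : ∀ i j, trace (C i * C j) = trace (C' i * C' j)) (i : ι) (k : ℕ) :
    trace (C i ^ (k + 1)) = trace (C' i ^ (k + 1)) := by
  have hdown : Down sz (Finset.univ : Finset ι) := fun _ _ _ _ => Finset.mem_univ _
  have htr' : ∀ a : ι → ℝ, trace (comb C a) = trace (comb C' a) := by
    intro a
    simp only [comb, trace_sum, trace_smul, htr]
  have key : ∀ k : ℕ, ∃ c : ι → ℝ, C i ^ (k + 1) = comb C c ∧ C' i ^ (k + 1) = comb C' c := by
    intro k
    induction k with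
    | zero =>
      exact ⟨Pi.single i 1, by rw [comb_single]; simp, by rw [comb_single]; simp⟩
    | succ k ih =>
      obtain ⟨c, hc, hc'⟩ := ih
      obtain ⟨d, -, hd, hd'⟩ := common_product hC hC' htr hgram _ Finset.univ rfl hdown c
        (Pi.single i 1) (fun i hi => absurd (Finset.mem_univ i) hi)
        (fun i hi => absurd (Finset.mem_univ i) hi)
      refine ⟨d, ?_, ?_⟩
      · rw [pow_succ, hc, ← hd, comb_single]
      · rw [pow_succ, hc', ← hd', comb_single]
  obtain ⟨c, hc, hc'⟩ := key k
  rw [hc, hc', htr']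

end Main

end Pool.Agent.Helper64.Iso
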