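import Mathlib

set_option autoImplicit false

namespace Pool.Agent.Helper64.Iso

/-- The submodule `V` of `R^d` is free of rank `k`. -/
def FreeOfRank {R : Type} [CommRing R] {d : ℕ} (k : ℕ) (V : Submodule R (Fin d → R)) : Prop :=
  Nonempty (V ≃ₗ[R] (Fin k → R))

/-- The vertices of colours `m` and `n`: the submodules of `R^d` that are free of rank `m` or
of rank `n`. -/
abbrev Vert (R : Type) [CommRing R] (d m n : ℕ) : Type :=
  {V : Submodule R (Fin d → R) // FreeOfRank m V ∨ FreeOfRank n V}

/-- One of the two submodules properly contains the other. -/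
def Incident {R : Type} [CommRing R] {d m n : ℕ} (V W : Vert R d m n) : Prop :=
  V.1 < W.1 ∨ W.1 < V.1

/-- The graph on the free submodules of ranks `m` and `n`; two different vertices are adjacent when
one contains the other. -/
def incGraph (R : Type) [CommRing R] (d m n : ℕ) : SimpleGraph (Vert R d m n) where
  Adj := Incident
  symm := ⟨fun _ _ h => h.symm⟩
  loopless := ⟨fun V h => by
    rcases h with h | h
    · exact lt_irrefl _ h
    · exact lt_irrefl _ h⟩

open Classical in
/-- Both graphs are finite and their real adjacency matrices have the same characteristic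
polynomial. -/
def Isospectral {V V' : Type} (G : SimpleGraph V) (G' : SimpleGraph V') : Prop :=
  ∃ (_ : Fintype V) (_ : Fintype V'), (G.adjMatrix ℝ).charpoly = (G'.adjMatrix ℝ).charpoly

end Pool.Agent.Helper64.Iso
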