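import Mathlib

set_option autoImplicit false

namespace Pool.Agent.Helper64.Iso

open Finset

section OneRing

variable {A : Type} [CommRing A]

/-- the cyclic module `A / (π ^ a)` -/
abbrev cyc (π : A) (a : ℕ) : Type := A ⧸ (Submodule.span A {π ^ a})

/-- the number of elements killed by `π ^ j`; as a function of `j` this is the type of `M` -/
noncomputable def tor (π : A) (M : Type) [AddCommGroup M] [Module A M] (j : ℕ) : ℕ :=
  Nat.card {x : M // π ^ j • x = 0}

/-- number of homomorphisms -/
noncomputable def hom (A : Type) [CommRing A] (M N : Type) [AddCommGroup M] [Module A M]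
    [AddCommGroup N] [Module A N] : ℕ := Nat.card (M →ₗ[A] N)

/-- number of surjective homomorphisms -/
noncomputable def nsurj (A : Type) [CommRing A] (M N : Type) [AddCommGroup M] [Module A M]
    [AddCommGroup N] [Module A N] : ℕ := Nat.card {f : M →ₗ[A] N // Function.Surjective f}

lemma tor_congr (π : A) {M N : Type} [AddCommGroup M] [Module A M] [AddCommGroup N] [Module A N]
    (e : M ≃ₗ[A] N) : tor π M = tor π N := by
  funext j
  refine Nat.card_congr ⟨fun x => ⟨e x.1, ?_⟩, fun y => ⟨e.symm y.1, ?_⟩, ?_, ?_⟩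
  · rw [← map_smul, x.2, map_zero]
  · rw [← map_smul, y.2, map_zero]
  · intro x; simp
  · intro y; simp

lemma hom_congr {M N M' N' : Type} [AddCommGroup M] [Module A M] [AddCommGroup N] [Module A N]
    [AddCommGroup M'] [Module A M'] [AddCommGroup N'] [Module A N']
    (e : M ≃ₗ[A] M') (f : N ≃ₗ[A] N') : hom A M N = hom A M' N' :=
  Nat.card_congr (LinearEquiv.arrowCongr e f).toEquiv

lemma nsurj_congr {M N M' N' : Type} [AddCommGroup M] [Module A M] [AddCommGroup N] [Module A N]
    [AddCommGroup M'] [Module A M'] [AddCommGroup N'] [Module A N']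
    (e : M ≃ₗ[A] M') (f : N ≃ₗ[A] N') : nsurj A M N = nsurj A M' N' := by
  refine Nat.card_congr ⟨fun g => ⟨(f.toLinearMap ∘ₗ g.1) ∘ₗ e.symm.toLinearMap, ?_⟩,
    fun g => ⟨(f.symm.toLinearMap ∘ₗ g.1) ∘ₗ e.toLinearMap, ?_⟩, ?_, ?_⟩
  · exact (f.surjective.comp g.2).comp e.symm.surjective
  · exact (f.symm.surjective.comp g.2).comp e.surjective
  · intro g
    ext x
    simp
  · intro g
    ext x
    simp

/-- `Hom(A/(π^a), M)` is the `π^a`-torsion of `M`. -/
lemma hom_cyc (π : A) (a : ℕ) (M : Type) [AddCommGroup M] [Module A M] :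
    hom A (cyc π a) M = tor π M a := by
  refine Nat.card_congr ⟨fun f => ⟨f (Submodule.Quotient.mk 1), ?_⟩, fun x =>
    Submodule.liftQ _ (LinearMap.toSpanSingleton A M x.1) ?_, ?_, ?_⟩
  · rw [← map_smul, ← Submodule.Quotient.mk_smul, smul_eq_mul, mul_one]
    have : (Submodule.Quotient.mk (π ^ a) : cyc π a) = 0 :=
      (Submodule.Quotient.mk_eq_zero _).mpr (Submodule.mem_span_singleton_self _)
    rw [this, map_zero]
  · rw [Submodule.span_singleton_le_iff_mem, LinearMap.mem_ker,
      LinearMap.toSpanSingleton_apply]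
    exact x.2
  · intro f
    ext
    simp [LinearMap.toSpanSingleton_apply]
  · intro x
    apply Subtype.ext
    change Submodule.liftQ _ (LinearMap.toSpanSingleton A M x.1) _ (Submodule.Quotient.mk 1) = x.1
    rw [Submodule.liftQ_apply, LinearMap.toSpanSingleton_apply, one_smul]

lemma hom_pi {s : ℕ} (M : Fin s → Type) [∀ i, AddCommGroup (M i)] [∀ i, Module A (M i)]
    (N : Type) [AddCommGroup N] [Module A N] :
    hom A (∀ i, M i) N = ∏ i, hom A (M i) N := by
  rw [hom, ← Nat.card_congr (LinearMap.lsum A M A (M := N)).toEquiv, Nat.card_pi]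
  rfl

lemma tor_pi (π : A) {s : ℕ} (M : Fin s → Type) [∀ i, AddCommGroup (M i)] [∀ i, Module A (M i)]
    (j : ℕ) : tor π (∀ i, M i) j = ∏ i, tor π (M i) j := by
  unfold tor
  rw [← Nat.card_pi]
  refine Nat.card_congr ⟨fun x i => ⟨x.1 i, ?_⟩, fun y => ⟨fun i => (y i).1, ?_⟩, ?_, ?_⟩
  · have := congrFun x.2 i
    simpa using this
  · funext i
    have := (y i).2
    simpa using this
  · intro x; rfl
  · intro y; rfl

end OneRing

section PID

variable {A : Type} [CommRing A] [IsDomain A] [IsPrincipalIdealRing A] {π : A}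

lemma card_cyc (hπ : Irreducible π) (a : ℕ) :
    Nat.card (cyc π a) = Nat.card (cyc π 1) ^ a := by
  have hp : (Ideal.span {π}).IsPrime :=
    (Ideal.span_singleton_prime hπ.ne_zero).mpr hπ.prime
  have hb : Ideal.span {π} ≠ ⊥ := by
    rw [Ne, Ideal.span_singleton_eq_bot]
    exact hπ.ne_zero
  have h := cardQuot_pow_of_prime (P := Ideal.span {π}) hb (i := a)
  rw [Ideal.span_singleton_pow] at h
  rw [Submodule.cardQuot_apply, Submodule.cardQuot_apply] at h
  have e : (Submodule.span A {π ^ 1}) = Ideal.span {π} := by rw [pow_one]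
  change Nat.card (A ⧸ Submodule.span A {π ^ a}) = Nat.card (A ⧸ Submodule.span A {π ^ 1}) ^ a
  rw [e]
  exact h

/-- torsion counts of cyclic modules -/
lemma tor_cyc (hπ : Irreducible π) (a j : ℕ) :
    tor π (cyc π a) j = Nat.card (cyc π 1) ^ (min a j) := by
  rcases le_total a j with h | h
  · rw [min_eq_left h, ← card_cyc hπ]
    refine Nat.card_congr ⟨fun x => x.1, fun x => ⟨x, ?_⟩, fun x => rfl, fun x => rfl⟩
    obtain ⟨y, rfl⟩ := Submodule.Quotient.mk_surjective _ x
    rw [← Submodule.Quotient.mk_smul, Submodule.Quotient.mk_eq_zero, smul_eq_mul]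
    exact Submodule.mem_span_singleton.mpr ⟨π ^ (j - a) * y, by
      rw [smul_eq_mul]
      have : π ^ j = π ^ (j - a) * π ^ a := by rw [← pow_add]; congr 1; omega
      rw [this]; ring⟩
  · rw [min_eq_right h, ← card_cyc hπ]
    -- the map `y ↦ π^(a-j) y`
    let φ : A →ₗ[A] cyc π a :=
      (Submodule.mkQ _) ∘ₗ (LinearMap.lsmul A A (π ^ (a - j)))
    have hφ : ∀ y, φ y = Submodule.Quotient.mk (π ^ (a - j) * y) := fun y => rfl
    have hpow : π ^ a = π ^ (a - j) * π ^ j := by rw [← pow_add]; congr 1; omega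
    have hne : π ^ (a - j) ≠ 0 := pow_ne_zero _ hπ.ne_zero
    have hker : LinearMap.ker φ = Submodule.span A {π ^ j} := by
      ext y
      rw [LinearMap.mem_ker, hφ, Submodule.Quotient.mk_eq_zero, Submodule.mem_span_singleton,
        Submodule.mem_span_singleton]
      constructor
      · rintro ⟨c, hc⟩
        refine ⟨c, ?_⟩
        rw [smul_eq_mul, hpow] at hc
        rw [smul_eq_mul]
        apply mul_left_cancel₀ hne
        rw [← hc]; ring
      · rintro ⟨c, hc⟩
        refine ⟨c, ?_⟩
        rw [smul_eq_mul] at hc ⊢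
        rw [← hc, hpow]; ring
    have hrange : ∀ x : cyc π a, x ∈ LinearMap.range φ ↔ π ^ j • x = 0 := by
      intro x
      obtain ⟨z, rfl⟩ := Submodule.Quotient.mk_surjective _ x
      rw [LinearMap.mem_range, ← Submodule.Quotient.mk_smul, Submodule.Quotient.mk_eq_zero,
        Submodule.mem_span_singleton]
      constructor
      · rintro ⟨y, hy⟩
        rw [hφ, Submodule.Quotient.eq, Submodule.mem_span_singleton] at hy
        obtain ⟨c, hc⟩ := hy
        refine ⟨y - π ^ j * c, ?_⟩
        rw [smul_eq_mul] at hc ⊢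
        rw [smul_eq_mul]
        have : z = π ^ (a - j) * y - c * π ^ a := by rw [hc]; ring
        rw [this, hpow]; ring
      · rintro ⟨c, hc⟩
        refine ⟨c, ?_⟩
        rw [hφ]
        congr 1
        rw [smul_eq_mul, smul_eq_mul, hpow] at hc
        have hne' : π ^ j ≠ 0 := pow_ne_zero _ hπ.ne_zero
        apply mul_left_cancel₀ hne'
        rw [← hc]; ring
    have e1 : {x : cyc π a // π ^ j • x = 0} ≃ LinearMap.range φ :=
      Equiv.subtypeEquivRight fun x => (hrange x).symm
    have e2 := (LinearMap.quotKerEquivRange φ).toEquiv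
    rw [tor, Nat.card_congr e1, ← Nat.card_congr e2, hker]

/-- structure theorem -/
lemma exists_decomp (hπ : Irreducible π) (M : Type) [AddCommGroup M] [Module A M] [Finite M]
    (r : ℕ) (hM : ∀ x : M, π ^ r • x = 0) :
    ∃ (s : ℕ) (κ : Fin s → ℕ), Nonempty (M ≃ₗ[A] ((i : Fin s) → cyc π (κ i))) := by
  classical
  have hfin : Module.Finite A M := Module.Finite.of_finite
  have htors : Module.IsTorsion' M (Submonoid.powers π) := by
    intro x
    exact ⟨⟨π ^ r, r, rfl⟩, hM x⟩
  obtain ⟨s, κ, ⟨e⟩⟩ := Module.torsion_by_prime_power_decomposition hπ htors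
  exact ⟨s, κ, ⟨e.trans (DirectSum.linearEquivFunOnFintype A (Fin s) _)⟩⟩

lemma decomp_le (hπ : Irreducible π) {M : Type} [AddCommGroup M] [Module A M]
    {s : ℕ} {κ : Fin s → ℕ} (e : M ≃ₗ[A] ((i : Fin s) → cyc π (κ i)))
    (r : ℕ) (hM : ∀ x : M, π ^ r • x = 0) (i : Fin s) : κ i ≤ r := by
  classical
  have h1 := hM (e.symm (Pi.single i (Submodule.Quotient.mk 1)))
  rw [← map_smul] at h1
  have h2 := e.symm.map_eq_zero_iff.mp h1
  have h3 := congrFun h2 i
  rw [Pi.smul_apply, Pi.single_eq_same, Pi.zero_apply, ← Submodule.Quotient.mk_smul,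
    Submodule.Quotient.mk_eq_zero, smul_eq_mul, mul_one, Submodule.mem_span_singleton] at h3
  obtain ⟨c, hc⟩ := h3
  have h4 : π ^ (κ i) ∣ π ^ r := ⟨c, by rw [← hc, smul_eq_mul]; ring⟩
  exact (pow_dvd_pow_iff hπ.ne_zero hπ.not_isUnit).mp h4

lemma kill_decomp (π : A) {s : ℕ} {κ : Fin s → ℕ} (r : ℕ) (h : ∀ i, κ i ≤ r)
    (x : (i : Fin s) → cyc π (κ i)) : π ^ r • x = 0 := by
  funext i
  obtain ⟨y, hy⟩ := Submodule.Quotient.mk_surjective _ (x i)
  rw [Pi.smul_apply, Pi.zero_apply, ← hy, ← Submodule.Quotient.mk_smul,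
    Submodule.Quotient.mk_eq_zero, smul_eq_mul, Submodule.mem_span_singleton]
  refine ⟨π ^ (r - κ i) * y, ?_⟩
  rw [smul_eq_mul]
  have : π ^ r = π ^ (r - κ i) * π ^ (κ i) := by
    rw [← pow_add]; congr 1; have := h i; omega
  rw [this]; ring

lemma hom_decomp {M : Type} [AddCommGroup M] [Module A M] {s : ℕ} {κ : Fin s → ℕ}
    (e : M ≃ₗ[A] ((i : Fin s) → cyc π (κ i))) (N : Type) [AddCommGroup N] [Module A N] :
    hom A M N = ∏ i, tor π N (κ i) := by
  rw [hom_congr e (LinearEquiv.refl A N), hom_pi]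
  exact Finset.prod_congr rfl fun i _ => hom_cyc π (κ i) N

lemma tor_decomp (hπ : Irreducible π) {M : Type} [AddCommGroup M] [Module A M] {s : ℕ}
    {κ : Fin s → ℕ} (e : M ≃ₗ[A] ((i : Fin s) → cyc π (κ i))) (j : ℕ) :
    tor π M j = ∏ i, Nat.card (cyc π 1) ^ (min (κ i) j) := by
  rw [tor_congr π e, tor_pi]
  exact Finset.prod_congr rfl fun i _ => tor_cyc hπ (κ i) j

/-- symmetry of the number of homomorphisms -/
lemma hom_symm (hπ : Irreducible π) (M N : Type) [AddCommGroup M] [Module A M] [Finite M]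
    [AddCommGroup N] [Module A N] [Finite N] (r : ℕ) (hM : ∀ x : M, π ^ r • x = 0)
    (hN : ∀ x : N, π ^ r • x = 0) : hom A M N = hom A N M := by
  obtain ⟨s, κ, ⟨e⟩⟩ := exists_decomp hπ M r hM
  obtain ⟨t, ρ, ⟨f⟩⟩ := exists_decomp hπ N r hN
  rw [hom_decomp e, hom_decomp f]
  simp_rw [tor_decomp hπ e, tor_decomp hπ f]
  rw [Finset.prod_comm]
  refine Finset.prod_congr rfl fun i _ => Finset.prod_congr rfl fun j _ => ?_
  rw [min_comm]

/-- cardinality of a module killed by `π ^ r` -/
lemma tor_top {M : Type} [AddCommGroup M] [Module A M] (r : ℕ) (hM : ∀ x : M, π ^ r • x = 0) :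
    tor π M r = Nat.card M :=
  Nat.card_congr ⟨fun x => x.1, fun x => ⟨x, hM x⟩, fun _ => rfl, fun _ => rfl⟩

/-- counting homomorphisms by their range -/
lemma hom_eq_sum (M N : Type) [AddCommGroup M] [Module A M] [Finite M]
    [AddCommGroup N] [Module A N] [Finite N] [Fintype (Submodule A N)] :
    hom A M N = ∑ L : Submodule A N, nsurj A M L := by
  classical
  have hfin : Finite (M →ₗ[A] N) := Finite.of_injective _ DFunLike.coe_injective
  have e := Equiv.sigmaFiberEquiv (fun f : M →ₗ[A] N => LinearMap.range f)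
  rw [hom, ← Nat.card_congr e, Nat.card_sigma]
  refine Finset.sum_congr rfl fun L _ => ?_
  refine Nat.card_congr ⟨fun f => ⟨f.1.codRestrict L ?_, ?_⟩, fun g => ⟨L.subtype ∘ₗ g.1, ?_⟩,
    ?_, ?_⟩
  · intro x
    have := LinearMap.mem_range_self f.1 x
    rwa [f.2] at this
  · rintro ⟨y, hy⟩
    rw [← f.2] at hy
    obtain ⟨x, hx⟩ := hy
    exact ⟨x, Subtype.ext hx⟩
  · change LinearMap.range (L.subtype ∘ₗ g.1) = L
    rw [LinearMap.range_comp, LinearMap.range_eq_top.mpr g.2, Submodule.map_top,
      Submodule.range_subtype]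
  · intro f
    ext x
    rfl
  · intro g
    ext x
    rfl

lemma nsurj_pos (M : Type) [AddCommGroup M] [Module A M] [Finite M] : 0 < nsurj A M M := by
  have hfin : Finite (M →ₗ[A] M) := Finite.of_injective _ DFunLike.coe_injective
  have : Nonempty {f : M →ₗ[A] M // Function.Surjective f} :=
    ⟨⟨LinearMap.id, Function.surjective_id⟩⟩
  exact Nat.card_pos

/-- Lovász-type cancellation: equal torsion counts imply isomorphic. -/
theorem iso_of_tor (hπ : Irreducible π) (r : ℕ) (M N : Type) [AddCommGroup M] [Module A M]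
    [Finite M] [AddCommGroup N] [Module A N] [Finite N] (hM : ∀ x : M, π ^ r • x = 0)
    (hN : ∀ x : N, π ^ r • x = 0) (h : tor π M = tor π N) : Nonempty (M ≃ₗ[A] N) := by
  -- equal number of homomorphisms to every module
  have h1 : ∀ (K : Type) [AddCommGroup K] [Module A K] [Finite K],
      (∀ x : K, π ^ r • x = 0) → hom A M K = hom A N K := by
    intro K _ _ _ hK
    obtain ⟨s, κ, ⟨e⟩⟩ := exists_decomp hπ K r hK
    rw [hom_symm hπ M K r hM hK, hom_symm hπ N K r hN hK, hom_decomp e, hom_decomp e, h]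
  have h2 : ∀ (n : ℕ) (K : Type) [AddCommGroup K] [Module A K] [Finite K],
      Nat.card K = n → (∀ x : K, π ^ r • x = 0) → nsurj A M K = nsurj A N K := by
    intro n
    induction n using Nat.strong_induction_on with
    | _ n ih =>
      intro K _ _ _ hn hK
      classical
      have : Fintype (Submodule A K) := Fintype.ofFinite _
      have e1 := hom_eq_sum (A := A) M K
      have e2 := hom_eq_sum (A := A) N K
      rw [h1 K hK, e2, ← Finset.add_sum_erase _ _ (Finset.mem_univ ⊤),
        ← Finset.add_sum_erase _ (fun L : Submodule A K => nsurj A M L) (Finset.mem_univ ⊤)] at e1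
      have e3 : ∑ L ∈ (Finset.univ : Finset (Submodule A K)).erase ⊤, nsurj A M L =
          ∑ L ∈ (Finset.univ : Finset (Submodule A K)).erase ⊤, nsurj A N L := by
        refine Finset.sum_congr rfl fun L hL => ?_
        rw [Finset.mem_erase] at hL
        refine ih (Nat.card L) ?_ L rfl ?_
        · rw [← hn]
          have hlt : (L : Set K) ⊂ Set.univ := by
            rw [Set.ssubset_univ_iff]
            intro hu
            exact hL.1 (SetLike.coe_injective (by rw [hu]; rfl))
          have := Set.ncard_lt_ncard hlt (Set.toFinite _)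
          rw [Set.ncard_univ] at this
          exact this
        · intro x
          exact Subtype.ext (hK x.1)
      rw [e3] at e1
      have e4 := Nat.add_right_cancel e1
      have e5 : nsurj A M (⊤ : Submodule A K) = nsurj A M K :=
        nsurj_congr (LinearEquiv.refl A M) Submodule.topEquiv
      have e6 : nsurj A N (⊤ : Submodule A K) = nsurj A N K :=
        nsurj_congr (LinearEquiv.refl A N) Submodule.topEquiv
      rw [← e5, ← e6, e4]
  have h3 : 0 < nsurj A M N := by
    rw [h2 _ N rfl hN]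
    exact nsurj_pos N
  have hfin : Finite (M →ₗ[A] N) := Finite.of_injective _ DFunLike.coe_injective
  obtain ⟨⟨f, hf⟩⟩ := (Nat.card_pos_iff.mp h3).1
  have hcard : Nat.card M = Nat.card N := by
    rw [← tor_top r hM, ← tor_top r hN, h]
  have hbij : Function.Bijective f := by
    refine ⟨?_, hf⟩
    exact (Nat.bijective_iff_surjective_and_card f).mpr ⟨hf, hcard⟩ |>.1
  exact ⟨LinearEquiv.ofBijective f hbij⟩

end PID

end Pool.Agent.Helper64.Iso
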