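import Mathlib
import Pool.Agent.Helper64.Iso.Modules

set_option autoImplicit false

namespace Pool.Agent.Helper64.Iso

open Finset

section Glue

variable {A : Type} [CommRing A] {E F : Type} [AddCommGroup E] [Module A E] [AddCommGroup F]
  [Module A F]

/-- gluing two linear maps that agree on the intersection -/
lemma glue (U W : Submodule A E) (f : U →ₗ[A] F) (g : W →ₗ[A] F)
    (hag : ∀ (u : U) (w : W), (u : E) = w → f u = g w)
    (hinj : ∀ (u : U) (w : W), f u + g w = 0 → (u : E) + w = 0) :
    ∃ h : (U ⊔ W : Submodule A E) →ₗ[A] F, Function.Injective h ∧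
      (∀ (u : U) (hu : (u : E) ∈ U ⊔ W), h ⟨u, hu⟩ = f u) ∧
      (∀ (w : W) (hw : (w : E) ∈ U ⊔ W), h ⟨w, hw⟩ = g w) := by
  let f' : E →ₗ.[A] F := ⟨U, f⟩
  let g' : E →ₗ.[A] F := ⟨W, g⟩
  have hag' : ∀ (x : f'.domain) (y : g'.domain), (x : E) = y → f' x = g' y := hag
  let h : (U ⊔ W : Submodule A E) →ₗ[A] F := (f'.sup g' hag').toFun
  have hval : ∀ (u : U) (w : W) (huw : (u : E) + w ∈ U ⊔ W), h ⟨(u : E) + w, huw⟩ = f u + g w := by
    intro u w huw
    exact LinearPMap.sup_apply hag' u w ⟨(u : E) + w, huw⟩ rfl
  refine ⟨h, ?_, ?_, ?_⟩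
  · rw [injective_iff_map_eq_zero]
    rintro ⟨x, hx⟩ h0
    obtain ⟨u, hu, w, hw, rfl⟩ := Submodule.mem_sup.mp hx
    have h1 := hval ⟨u, hu⟩ ⟨w, hw⟩ hx
    change h ⟨u + w, hx⟩ = _ at h1
    rw [h0] at h1
    have h2 := hinj ⟨u, hu⟩ ⟨w, hw⟩ h1.symm
    exact Subtype.ext h2
  · intro u hu
    have h1 := hval u 0 (by simpa using hu)
    rw [map_zero, add_zero] at h1
    rw [← h1]
    congr 1
    apply Subtype.ext
    simp
  · intro w hw
    have h1 := hval 0 w (by simpa using hw)
    rw [map_zero, zero_add] at h1
    rw [← h1]
    congr 1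
    apply Subtype.ext
    simp

end Glue

section Auto

variable {A : Type} [CommRing A] [IsDomain A] [IsPrincipalIdealRing A] {π : A}

omit [IsDomain A] in
/-- if `c x` and `π x` lie in `U` and `x` does not then `π ∣ c` -/
lemma dvd_of_mem (hπ : Irreducible π) {E : Type} [AddCommGroup E] [Module A E]
    (U : Submodule A E) {x : E} (hx : x ∉ U) (hπx : π • x ∈ U) {c : A} (hc : c • x ∈ U) :
    π ∣ c := by
  by_contra hnd
  have hcop : IsCoprime π c := (Irreducible.coprime_iff_not_dvd hπ).mpr hnd
  obtain ⟨a, b, hab⟩ := hcop
  apply hx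
  have : x = a • (π • x) + b • (c • x) := by
    rw [smul_smul, smul_smul, ← add_smul, hab, one_smul]
  rw [this]
  exact U.add_mem (U.smul_mem _ hπx) (U.smul_mem _ hc)

/-- Extension of injective partial maps of a homogeneous module to automorphisms. -/
theorem extend_auto (hπ : Irreducible π) (r : ℕ) (hr : 1 ≤ r) (F : Type) [AddCommGroup F]
    [Module A F] [Finite F] (hF : ∀ x : F, π ^ r • x = 0)
    (hdiv : ∀ z : F, π ^ (r - 1) • z = 0 → ∃ y, z = π • y) :
    ∀ (U : Submodule A F) (f : U →ₗ[A] F), Function.Injective f →
      ∃ g : F ≃ₗ[A] F, ∀ u : U, g u = f u := by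
  intro U
  induction U using WellFoundedGT.induction with
  | ind U ih =>
    intro f hf
    by_cases hU : U = ⊤
    · subst hU
      let g : F →ₗ[A] F := f ∘ₗ (Submodule.topEquiv (R := A) (M := F)).symm.toLinearMap
      have hg : Function.Injective g := hf.comp (Submodule.topEquiv (R := A) (M := F)).symm.injective
      have hg' : Function.Bijective g := ⟨hg, Finite.surjective_of_injective hg⟩
      exact ⟨LinearEquiv.ofBijective g hg', fun u => rfl⟩
    · -- choose x
      obtain ⟨x₀, hx₀⟩ : ∃ x, x ∉ U := by
        by_contra hcon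
        push Not at hcon
        exact hU (eq_top_iff.mpr fun x _ => hcon x)
      classical
      have hex : ∃ j, π ^ j • x₀ ∈ U := ⟨r, by rw [hF]; exact U.zero_mem⟩
      have hj0 : Nat.find hex ≠ 0 := by
        intro h0
        have := Nat.find_spec hex
        rw [h0, pow_zero, one_smul] at this
        exact hx₀ this
      obtain ⟨j, hj⟩ := Nat.exists_eq_succ_of_ne_zero hj0
      set x := π ^ j • x₀ with hx
      have hxU : x ∉ U := Nat.find_min hex (m := j) (by omega)
      have hπx : π • x ∈ U := by
        have := Nat.find_spec hex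
        rw [hj, pow_succ', mul_smul] at this
        exact this
      set z := f ⟨π • x, hπx⟩ with hz
      have hz0 : π ^ (r - 1) • z = 0 := by
        rw [hz, ← map_smul]
        have : π ^ (r - 1) • (⟨π • x, hπx⟩ : U) = 0 := by
          apply Subtype.ext
          change π ^ (r - 1) • (π • x) = 0
          rw [smul_smul, ← pow_succ, Nat.sub_add_cancel hr, hF]
        rw [this, map_zero]
      obtain ⟨y₀, hy₀⟩ := hdiv z hz0
      -- choose y outside the range
      have hy : ∃ y, π • y = z ∧ ∀ u : U, f u ≠ y := by
        by_cases h1 : ∀ u : U, f u ≠ y₀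
        · exact ⟨y₀, hy₀.symm, h1⟩
        · push Not at h1
          obtain ⟨u₀, hu₀⟩ := h1
          by_cases h2 : ∃ s : F, π • s = 0 ∧ ∀ u : U, f u ≠ s
          · obtain ⟨s, hs, hs'⟩ := h2
            refine ⟨y₀ + s, by rw [smul_add, hs, add_zero, hy₀], ?_⟩
            intro u hu
            apply hs' (u - u₀)
            rw [map_sub, hu, hu₀]
            abel
          · exfalso
            push Not at h2
            -- counting
            have hsurj : Function.Surjective
                (fun u : {u : U // π • u = 0} => (⟨f u.1, by rw [← map_smul, u.2, map_zero]⟩ :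
                  {s : F // π • s = 0})) := by
              rintro ⟨s, hs⟩
              obtain ⟨u, hu⟩ := h2 s hs
              refine ⟨⟨u, ?_⟩, Subtype.ext hu⟩
              apply hf
              rw [map_smul, hu, hs, map_zero]
            have hinj : Function.Injective
                (fun u : {u : U // π • u = 0} => (⟨(u.1 : F), by
                  have := congrArg Subtype.val u.2; exact this⟩ : {s : F // π • s = 0})) := by
              intro u v huv
              apply Subtype.ext
              apply Subtype.ext
              have h9 := congrArg (fun t : {s : F // π • s = 0} => t.1) huv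
              exact h9
            have hc1 := Nat.card_le_card_of_surjective _ hsurj
            have hbij := (Nat.bijective_iff_injective_and_card _).mpr
              ⟨hinj, le_antisymm (Nat.card_le_card_of_injective _ hinj) hc1⟩
            -- x - u₀ is killed by π
            have h3 : π • u₀ = ⟨π • x, hπx⟩ := by
              apply hf
              rw [map_smul, hu₀, ← hz, hy₀]
            have h4 : π • (x - u₀) = 0 := by
              rw [smul_sub, sub_eq_zero]
              have := congrArg Subtype.val h3
              exact this.symm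
            obtain ⟨v, hv⟩ := hbij.2 ⟨x - u₀, h4⟩
            have h5 : ((v.1 : U) : F) = x - u₀ := congrArg Subtype.val hv
            apply hxU
            have h6 : x = ((v.1 : U) : F) + u₀ := by rw [h5]; abel
            rw [h6]
            exact U.add_mem v.1.2 u₀.2
      obtain ⟨y, hyz, hyU⟩ := hy
      -- the one dimensional map
      have hH : ∀ c : A, c • x = 0 → (RingHom.id A) c • y = 0 := by
        intro c hc
        obtain ⟨c', rfl⟩ := dvd_of_mem hπ U hxU hπx (c := c) (by rw [hc]; exact U.zero_mem)
        rw [RingHom.id_apply, mul_comm, mul_smul, hyz, hz, ← map_smul]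
        have : c' • (⟨π • x, hπx⟩ : U) = 0 := by
          apply Subtype.ext
          change c' • (π • x) = 0
          rw [smul_smul, mul_comm, hc]
        rw [this, map_zero]
      let g' := LinearPMap.mkSpanSingleton' x y hH
      let g : Submodule.span A {x} →ₗ[A] F := g'.toFun
      have hgval : ∀ (c : A) (h : c • x ∈ Submodule.span A {x}), g ⟨c • x, h⟩ = c • y :=
        fun c h => LinearPMap.mkSpanSingleton'_apply x y hH c h
      have hcx : ∀ (c : A) (u : U), (u : F) = c • x → f u = c • y := by
        intro c u hu
        obtain ⟨c', rfl⟩ := dvd_of_mem hπ U hxU hπx (c := c) (by rw [← hu]; exact u.2)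
        rw [mul_comm, mul_smul, hyz, hz, ← map_smul]
        congr 1
        apply Subtype.ext
        rw [hu, mul_comm, mul_smul]
        rfl
      obtain ⟨h, hhinj, hhU, -⟩ := glue U (Submodule.span A {x}) f g (by
        rintro u ⟨w, hw⟩ huw
        obtain ⟨c, rfl⟩ := Submodule.mem_span_singleton.mp hw
        rw [hgval]
        exact hcx c u huw) (by
        rintro u ⟨w, hw⟩ huw
        obtain ⟨c, rfl⟩ := Submodule.mem_span_singleton.mp hw
        rw [hgval] at huw
        change (u : F) + c • x = 0
        by_cases hdc : π ∣ c
        · obtain ⟨c', rfl⟩ := hdc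
          have hmem : (π * c') • x ∈ U := by
            rw [mul_comm, mul_smul]
            exact U.smul_mem _ hπx
          have h1 : f ⟨_, hmem⟩ = (π * c') • y := hcx _ ⟨_, hmem⟩ rfl
          rw [← h1, ← map_add] at huw
          have h2 := (injective_iff_map_eq_zero f).mp hf _ huw
          exact congrArg Subtype.val h2
        · exfalso
          have hcop : IsCoprime π c := (Irreducible.coprime_iff_not_dvd hπ).mpr hdc
          obtain ⟨a, b, hab⟩ := hcop
          apply hyU (a • ⟨π • x, hπx⟩ - b • u)
          rw [map_sub, map_smul, map_smul, ← hz, ← hyz]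
          have h1 : c • y = - f u := eq_neg_of_add_eq_zero_right huw
          have h2 : y = a • (π • y) + b • (c • y) := by
            rw [smul_smul, smul_smul, ← add_smul, hab, one_smul]
          conv_rhs => rw [h2, h1]
          rw [smul_neg, sub_eq_add_neg])
      have hlt : U < U ⊔ Submodule.span A {x} := by
        refine lt_of_le_of_ne le_sup_left ?_
        intro heq
        apply hxU
        rw [heq]
        exact Submodule.mem_sup_right (Submodule.mem_span_singleton_self x)
      obtain ⟨G, hG⟩ := ih _ hlt h hhinj
      refine ⟨G, fun u => ?_⟩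
      rw [← hhU u (Submodule.mem_sup_left u.2)]
      exact hG ⟨u, Submodule.mem_sup_left u.2⟩

end Auto

end Pool.Agent.Helper64.Iso
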