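import Mathlib
import Pool.Agent.Helper64.Iso.Modules

set_option autoImplicit false

namespace Pool.Agent.Helper64.Iso

open Finset

/-- transferring sums along label-preserving correspondences -/
lemma sum_transfer {S S' T : Type} [Fintype S] [Fintype S'] (t : S → T) (t' : S' → T)
    (p : T → Prop) [DecidablePred p] (F : S → ℕ) (F' : S' → ℕ)
    (hcard : ∀ κ, p κ → Nat.card {x // t x = κ} = Nat.card {x' // t' x' = κ})
    (hF : ∀ x x', t x = t' x' → p (t x) → F x = F' x') :
    ∑ x ∈ univ.filter (fun x => p (t x)), F x = ∑ x' ∈ univ.filter (fun x' => p (t' x')), F' x' := by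
  classical
  set K : Finset T := (univ.image t ∪ univ.image t').filter p with hK
  rw [← Finset.sum_fiberwise_of_maps_to (s := univ.filter (fun x => p (t x))) (t := K) (g := t)
      (fun x hx => by
        rw [hK, Finset.mem_filter]
        exact ⟨Finset.mem_union_left _ (Finset.mem_image_of_mem _ (Finset.mem_univ x)),
          (Finset.mem_filter.mp hx).2⟩),
    ← Finset.sum_fiberwise_of_maps_to (s := univ.filter (fun x => p (t' x))) (t := K) (g := t')
      (fun x hx => by
        rw [hK, Finset.mem_filter]
        exact ⟨Finset.mem_union_right _ (Finset.mem_image_of_mem _ (Finset.mem_univ x)),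
          (Finset.mem_filter.mp hx).2⟩)]
  refine Finset.sum_congr rfl fun κ hκ => ?_
  have hpκ : p κ := (Finset.mem_filter.mp hκ).2
  have e1 : (univ.filter (fun x => p (t x))).filter (fun x => t x = κ) =
      univ.filter (fun x => t x = κ) := by
    ext x
    simp only [Finset.mem_filter, Finset.mem_univ, true_and]
    exact ⟨fun h => h.2, fun h => ⟨h ▸ hpκ, h⟩⟩
  have e2 : (univ.filter (fun x => p (t' x))).filter (fun x => t' x = κ) =
      univ.filter (fun x => t' x = κ) := by
    ext x
    simp only [Finset.mem_filter, Finset.mem_univ, true_and]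
    exact ⟨fun h => h.2, fun h => ⟨h ▸ hpκ, h⟩⟩
  rw [e1, e2]
  have hc := hcard κ hpκ
  rw [Nat.card_eq_fintype_card, Nat.card_eq_fintype_card, Fintype.card_subtype,
    Fintype.card_subtype] at hc
  rcases (univ.filter (fun x => t x = κ)).eq_empty_or_nonempty with he | ⟨x₀, hx₀⟩
  · rw [he, Finset.card_empty] at hc
    rw [he, Finset.card_eq_zero.mp hc.symm, Finset.sum_empty, Finset.sum_empty]
  · have hpos : 0 < (univ.filter (fun x' => t' x' = κ)).card := by
      rw [← hc]
      exact Finset.card_pos.mpr ⟨x₀, hx₀⟩
    obtain ⟨x₀', hx₀'⟩ := Finset.card_pos.mp hpos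
    have h1 := (Finset.mem_filter.mp hx₀).2
    have h2 := (Finset.mem_filter.mp hx₀').2
    rw [Finset.sum_congr rfl (g := fun _ => F' x₀') (fun x hx => by
        have h3 := (Finset.mem_filter.mp hx).2
        exact hF x x₀' (h3.trans h2.symm) (h3 ▸ hpκ)),
      Finset.sum_congr (s₁ := univ.filter (fun x' => t' x' = κ)) rfl (g := fun _ => F' x₀')
        (fun x hx => by
          have h3 := (Finset.mem_filter.mp hx).2
          rw [← hF x₀ x (h1.trans h3.symm) (h1 ▸ hpκ), hF x₀ x₀' (h1.trans h2.symm) (h1 ▸ hpκ)]),
      Finset.sum_const, Finset.sum_const, hc]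

section TwoRings

variable {A : Type} [CommRing A] [IsDomain A] [IsPrincipalIdealRing A] {π : A}
  {A' : Type} [CommRing A'] [IsDomain A'] [IsPrincipalIdealRing A'] {π' : A'}

/-- the number of homomorphisms depends only on the types -/
lemma hom_univ (hπ : Irreducible π) (hπ' : Irreducible π')
    (hq : Nat.card (cyc π 1) = Nat.card (cyc π' 1)) (r : ℕ)
    (M N : Type) [AddCommGroup M] [Module A M] [Finite M] [AddCommGroup N] [Module A N]
    (M' N' : Type) [AddCommGroup M'] [Module A' M'] [Finite M']
    [AddCommGroup N'] [Module A' N'] [Finite N']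
    (hM : ∀ x : M, π ^ r • x = 0)
    (hM' : ∀ x : M', π' ^ r • x = 0) (hN' : ∀ x : N', π' ^ r • x = 0)
    (hMM : tor π M = tor π' M') (hNN : tor π N = tor π' N') :
    hom A M N = hom A' M' N' := by
  obtain ⟨s, κ, ⟨e⟩⟩ := exists_decomp hπ M r hM
  obtain ⟨t, ρ, ⟨f⟩⟩ := exists_decomp hπ' N' r hN'
  rw [hom_decomp e, hNN, hom_symm hπ' M' N' r hM' hN', hom_decomp f, ← hMM]
  simp_rw [tor_decomp hπ' f, tor_decomp hπ e, hq]
  rw [Finset.prod_comm]
  refine Finset.prod_congr rfl fun i _ => Finset.prod_congr rfl fun j _ => ?_
  rw [min_comm]

/-- every module over `A` has a twin over `A'` -/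
lemma exists_twin (hπ : Irreducible π) (hπ' : Irreducible π')
    (hq : Nat.card (cyc π 1) = Nat.card (cyc π' 1)) (hq0 : Nat.card (cyc π' 1) ≠ 0) (r : ℕ)
    (M : Type) [AddCommGroup M] [Module A M] [Finite M] (hM : ∀ x : M, π ^ r • x = 0) :
    ∃ (M' : Type) (_ : AddCommGroup M') (_ : Module A' M') (_ : Finite M'),
      (∀ x : M', π' ^ r • x = 0) ∧ tor π M = tor π' M' := by
  obtain ⟨s, κ, ⟨e⟩⟩ := exists_decomp hπ M r hM
  have hfin : ∀ i, Finite (cyc π' (κ i)) := by
    intro i
    apply Nat.finite_of_card_ne_zero
    rw [card_cyc hπ']
    exact pow_ne_zero _ hq0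
  refine ⟨(i : Fin s) → cyc π' (κ i), inferInstance, inferInstance, inferInstance, ?_, ?_⟩
  · exact kill_decomp π' r (decomp_le hπ e r hM)
  · funext j
    rw [tor_decomp hπ e, tor_decomp hπ' (LinearEquiv.refl A' _), hq]

/-- number of submodules of a given type -/
noncomputable def nsub {A : Type} [CommRing A] (π : A) (N : Type) [AddCommGroup N] [Module A N]
    (κ : ℕ → ℕ) : ℕ := Nat.card {L : Submodule A N // tor π L = κ}

lemma card_lt_of_ne_top {A N : Type} [CommRing A] [AddCommGroup N] [Module A N] [Finite N]
    {L : Submodule A N} (hL : L ≠ ⊤) : Nat.card L < Nat.card N := by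
  have hlt : (L : Set N) ⊂ Set.univ := by
    rw [Set.ssubset_univ_iff]
    intro hu
    exact hL (SetLike.coe_injective (by rw [hu]; rfl))
  have := Set.ncard_lt_ncard hlt (Set.toFinite _)
  rw [Set.ncard_univ] at this
  exact this

lemma kill_sub {A N : Type} [CommRing A] [AddCommGroup N] [Module A N] {π : A} {r : ℕ}
    (hN : ∀ x : N, π ^ r • x = 0) (L : Submodule A N) (x : L) : π ^ r • x = 0 :=
  Subtype.ext (hN x.1)

lemma nsurj_eq_zero {A : Type} [CommRing A] {π : A} (M N : Type) [AddCommGroup M]
    [Module A M] [Finite M] [AddCommGroup N] [Module A N] [Finite N]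
    (hle : Nat.card M ≤ Nat.card N) (hne : tor π N ≠ tor π M) :
    nsurj A M N = 0 := by
  rw [nsurj, Nat.card_eq_zero]
  left
  constructor
  rintro ⟨f, hf⟩
  apply hne
  have h1 : Nat.card N ≤ Nat.card M := Nat.card_le_card_of_surjective f hf
  have hbij : Function.Bijective f :=
    ⟨((Nat.bijective_iff_surjective_and_card f).mpr ⟨hf, le_antisymm hle h1⟩).1, hf⟩
  exact (tor_congr π (LinearEquiv.ofBijective f hbij)).symm

/-- The main universality statement. -/
theorem universal (hπ : Irreducible π) (hπ' : Irreducible π')
    (hq : Nat.card (cyc π 1) = Nat.card (cyc π' 1)) (hq0 : Nat.card (cyc π' 1) ≠ 0) (r : ℕ) :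
    ∀ (b : ℕ) (N : Type) [AddCommGroup N] [Module A N] [Finite N]
      (N' : Type) [AddCommGroup N'] [Module A' N'] [Finite N'],
      (∀ x : N, π ^ r • x = 0) → (∀ x : N', π' ^ r • x = 0) → tor π N = tor π' N' →
      Nat.card N = b →
      (∀ κ, nsub π N κ = nsub π' N' κ) ∧
      (∀ (M : Type) [AddCommGroup M] [Module A M] [Finite M]
        (M' : Type) [AddCommGroup M'] [Module A' M'] [Finite M'],
        (∀ x : M, π ^ r • x = 0) → (∀ x : M', π' ^ r • x = 0) → tor π M = tor π' M' →
        nsurj A M N = nsurj A' M' N') := by
  classical
  intro b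
  induction b using Nat.strong_induction_on with
  | _ b ihb =>
    intro N _ _ _ N' _ _ _ hN hN' hNN hb
    have hbN' : Nat.card N' = b := by
      rw [← hb, ← tor_top r hN, ← tor_top r hN', hNN]
    have : Fintype (Submodule A N) := Fintype.ofFinite _
    have : Fintype (Submodule A' N') := Fintype.ofFinite _
    -- sizes from types
    have hsz : ∀ L : Submodule A N, tor π L r = Nat.card L := fun L => tor_top r (kill_sub hN L)
    have hsz' : ∀ L : Submodule A' N', tor π' L r = Nat.card L :=
      fun L => tor_top r (kill_sub hN' L)
    have part1 : ∀ κ, nsub π N κ = nsub π' N' κ := by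
      -- inner induction on the size of `κ`
      suffices H : ∀ (n : ℕ) (κ : ℕ → ℕ), κ r = n → nsub π N κ = nsub π' N' κ from
        fun κ => H (κ r) κ rfl
      intro n
      induction n using Nat.strong_induction_on with
      | _ n ihn =>
        intro κ hκ
        by_cases hnb : b ≤ n
        · -- only the top submodule can have this type
          have h1 : ∀ L : Submodule A N, tor π L = κ ↔ (L = ⊤ ∧ tor π N = κ) := by
            intro L
            constructor
            · intro h
              have hLtop : L = ⊤ := by
                by_contra hne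
                have h2 := card_lt_of_ne_top hne
                rw [← hsz L, h, hκ, hb] at h2
                omega
              refine ⟨hLtop, ?_⟩
              rw [← h, hLtop]
              exact (tor_congr π Submodule.topEquiv).symm
            · rintro ⟨rfl, h⟩
              rw [← h]
              exact tor_congr π Submodule.topEquiv
          have h1' : ∀ L : Submodule A' N', tor π' L = κ ↔ (L = ⊤ ∧ tor π' N' = κ) := by
            intro L
            constructor
            · intro h
              have hLtop : L = ⊤ := by
                by_contra hne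
                have h2 := card_lt_of_ne_top hne
                rw [← hsz' L, h, hκ, hbN'] at h2
                omega
              refine ⟨hLtop, ?_⟩
              rw [← h, hLtop]
              exact (tor_congr π' Submodule.topEquiv).symm
            · rintro ⟨rfl, h⟩
              rw [← h]
              exact tor_congr π' Submodule.topEquiv
          unfold nsub
          simp_rw [h1, h1', hNN]
          by_cases h3 : tor π' N' = κ
          · simp [h3]
          · simp [h3]
        · push Not at hnb
          -- get modules of type κ
          by_cases hex : (∃ L : Submodule A N, tor π L = κ) ∨ (∃ L : Submodule A' N', tor π' L = κ)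
          swap
          · push Not at hex
            have z1 : nsub π N κ = 0 := by
              rw [nsub, Nat.card_eq_zero]
              exact Or.inl ⟨fun x => hex.1 x.1 x.2⟩
            have z2 : nsub π' N' κ = 0 := by
              rw [nsub, Nat.card_eq_zero]
              exact Or.inl ⟨fun x => hex.2 x.1 x.2⟩
            rw [z1, z2]
          have hmods : ∃ (M : Type) (_ : AddCommGroup M) (_ : Module A M) (_ : Finite M)
              (M' : Type) (_ : AddCommGroup M') (_ : Module A' M') (_ : Finite M'),
              (∀ x : M, π ^ r • x = 0) ∧ (∀ x : M', π' ^ r • x = 0) ∧ tor π M = κ ∧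
              tor π' M' = κ := by
            rcases hex with ⟨L, hL⟩ | ⟨L, hL⟩
            · obtain ⟨M', i1, i2, i3, h4, h5⟩ := exists_twin hπ hπ' hq hq0 r L (kill_sub hN L)
              exact ⟨L, inferInstance, inferInstance, inferInstance, M', i1, i2, i3,
                kill_sub hN L, h4, hL, by rw [← h5, hL]⟩
            · obtain ⟨M, i1, i2, i3, h4, h5⟩ := exists_twin hπ' hπ hq.symm (by rw [hq]; exact hq0)
                r L (kill_sub hN' L)
              exact ⟨M, i1, i2, i3, L, inferInstance, inferInstance, inferInstance, h4,
                kill_sub hN' L, by rw [← h5, hL], hL⟩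
          obtain ⟨M, i1, i2, i3, M', i1', i2', i3', hM, hM', hMκ, hMκ'⟩ := hmods
          have hcM : Nat.card M = n := by rw [← tor_top r hM, hMκ, hκ]
          have hcM' : Nat.card M' = n := by rw [← tor_top r hM', hMκ', hκ]
          have ihM := ihb n hnb M M' hM hM' (hMκ.trans hMκ'.symm) hcM
          have hself : nsurj A M M = nsurj A' M' M' :=
            ihM.2 M M' hM hM' (hMκ.trans hMκ'.symm)
          have hhom : hom A M N = hom A' M' N' :=
            hom_univ hπ hπ' hq r M N M' N' hM hM' hN' (hMκ.trans hMκ'.symm) hNN
          -- split the sum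
          have split : ∀ L : Submodule A N, nsurj A M L =
              (if tor π L = κ then nsurj A M M else 0) +
                (if tor π L r < n then nsurj A M L else 0) := by
            intro L
            by_cases hL : tor π L = κ
            · have h6 : ¬ tor π L r < n := by rw [hL, hκ]; omega
              rw [if_pos hL, if_neg h6, add_zero]
              obtain ⟨e⟩ := iso_of_tor hπ r L M (kill_sub hN L) hM (by rw [hL, hMκ])
              exact nsurj_congr (LinearEquiv.refl A M) e
            · rw [if_neg hL, zero_add]
              by_cases h6 : tor π L r < n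
              · rw [if_pos h6]
              · rw [if_neg h6]
                apply nsurj_eq_zero (π := π)
                · rw [hcM, ← hsz L]; omega
                · rw [hMκ]; exact hL
          have split' : ∀ L : Submodule A' N', nsurj A' M' L =
              (if tor π' L = κ then nsurj A' M' M' else 0) +
                (if tor π' L r < n then nsurj A' M' L else 0) := by
            intro L
            by_cases hL : tor π' L = κ
            · have h6 : ¬ tor π' L r < n := by rw [hL, hκ]; omega
              rw [if_pos hL, if_neg h6, add_zero]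
              obtain ⟨e⟩ := iso_of_tor hπ' r L M' (kill_sub hN' L) hM' (by rw [hL, hMκ'])
              exact nsurj_congr (LinearEquiv.refl A' M') e
            · rw [if_neg hL, zero_add]
              by_cases h6 : tor π' L r < n
              · rw [if_pos h6]
              · rw [if_neg h6]
                apply nsurj_eq_zero (π := π')
                · rw [hcM', ← hsz' L]; omega
                · rw [hMκ']; exact hL
          have e1 := hom_eq_sum (A := A) M N
          have e2 := hom_eq_sum (A := A') M' N'
          rw [Finset.sum_congr rfl (fun L _ => split L), Finset.sum_add_distrib,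
            ← Finset.sum_filter, ← Finset.sum_filter, Finset.sum_const, smul_eq_mul] at e1
          rw [Finset.sum_congr rfl (fun L _ => split' L), Finset.sum_add_distrib,
            ← Finset.sum_filter, ← Finset.sum_filter, Finset.sum_const, smul_eq_mul] at e2
          have e3 : ∑ L ∈ univ.filter (fun L : Submodule A N => tor π L r < n), nsurj A M L =
              ∑ L ∈ univ.filter (fun L : Submodule A' N' => tor π' L r < n), nsurj A' M' L := by
            refine sum_transfer (fun L : Submodule A N => tor π L)
              (fun L : Submodule A' N' => tor π' L) (fun κ => κ r < n)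
              (fun L => nsurj A M L) (fun L => nsurj A' M' L) ?_ ?_
            · intro μ hμ
              exact ihn (μ r) hμ μ rfl
            · intro L L' hLL hlt
              have hlt' : Nat.card L < b := by
                rw [← hsz L]; exact lt_trans hlt hnb
              exact (ihb (Nat.card L) hlt' L L' (kill_sub hN L) (kill_sub hN' L') hLL rfl).2
                M M' hM hM' (hMκ.trans hMκ'.symm)
          rw [e1, e2, e3, hself] at hhom
          have e4 := Nat.add_right_cancel hhom
          have hpos : 0 < nsurj A' M' M' := nsurj_pos M'
          have e5 := Nat.eq_of_mul_eq_mul_right hpos e4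
          rw [nsub, nsub, Nat.card_eq_fintype_card, Nat.card_eq_fintype_card,
            Fintype.card_subtype, Fintype.card_subtype]
          exact e5
    refine ⟨part1, ?_⟩
    intro M _ _ _ M' _ _ _ hM hM' hMM
    have hhom : hom A M N = hom A' M' N' := hom_univ hπ hπ' hq r M N M' N' hM hM' hN' hMM hNN
    have split : ∀ L : Submodule A N, nsurj A M L =
        (if L = ⊤ then nsurj A M N else 0) + (if tor π L r < b then nsurj A M L else 0) := by
      intro L
      by_cases hL : L = ⊤
      · subst hL
        have h6 : ¬ tor π (⊤ : Submodule A N) r < b := by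
          rw [hsz, ← hb, Nat.card_congr (Submodule.topEquiv (R := A) (M := N)).toEquiv]
          omega
        rw [if_pos rfl, if_neg h6, add_zero]
        exact nsurj_congr (LinearEquiv.refl A M) Submodule.topEquiv
      · have h6 : tor π L r < b := by
          rw [hsz, ← hb]
          exact card_lt_of_ne_top hL
        rw [if_neg hL, if_pos h6, zero_add]
    have split' : ∀ L : Submodule A' N', nsurj A' M' L =
        (if L = ⊤ then nsurj A' M' N' else 0) + (if tor π' L r < b then nsurj A' M' L else 0) := by
      intro L
      by_cases hL : L = ⊤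
      · subst hL
        have h6 : ¬ tor π' (⊤ : Submodule A' N') r < b := by
          rw [hsz', ← hbN', Nat.card_congr (Submodule.topEquiv (R := A') (M := N')).toEquiv]
          omega
        rw [if_pos rfl, if_neg h6, add_zero]
        exact nsurj_congr (LinearEquiv.refl A' M') Submodule.topEquiv
      · have h6 : tor π' L r < b := by
          rw [hsz', ← hbN']
          exact card_lt_of_ne_top hL
        rw [if_neg hL, if_pos h6, zero_add]
    have e1 := hom_eq_sum (A := A) M N
    have e2 := hom_eq_sum (A := A') M' N'
    rw [Finset.sum_congr rfl (fun L _ => split L), Finset.sum_add_distrib,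
      Finset.sum_ite_eq' , if_pos (Finset.mem_univ _), ← Finset.sum_filter] at e1
    rw [Finset.sum_congr rfl (fun L _ => split' L), Finset.sum_add_distrib,
      Finset.sum_ite_eq', if_pos (Finset.mem_univ _), ← Finset.sum_filter] at e2
    have e3 : ∑ L ∈ univ.filter (fun L : Submodule A N => tor π L r < b), nsurj A M L =
        ∑ L ∈ univ.filter (fun L : Submodule A' N' => tor π' L r < b), nsurj A' M' L := by
      refine sum_transfer (fun L : Submodule A N => tor π L)
        (fun L : Submodule A' N' => tor π' L) (fun κ => κ r < b)
        (fun L => nsurj A M L) (fun L => nsurj A' M' L) ?_ ?_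
      · intro μ _
        exact part1 μ
      · intro L L' hLL hlt
        have hlt' : Nat.card L < b := by
          rw [← hsz L]; exact hlt
        exact (ihb (Nat.card L) hlt' L L' (kill_sub hN L) (kill_sub hN' L') hLL rfl).2
          M M' hM hM' hMM
    rw [e1, e2, e3] at hhom
    exact Nat.add_right_cancel hhom

/-- The number of submodules of type `κ` depends only on the type of the module. -/
theorem nsub_univ (hπ : Irreducible π) (hπ' : Irreducible π')
    (hq : Nat.card (cyc π 1) = Nat.card (cyc π' 1)) (hq0 : Nat.card (cyc π' 1) ≠ 0) (r : ℕ)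
    (N : Type) [AddCommGroup N] [Module A N] [Finite N]
    (N' : Type) [AddCommGroup N'] [Module A' N'] [Finite N']
    (hN : ∀ x : N, π ^ r • x = 0) (hN' : ∀ x : N', π' ^ r • x = 0) (h : tor π N = tor π' N')
    (κ : ℕ → ℕ) : nsub π N κ = nsub π' N' κ :=
  (universal hπ hπ' hq hq0 r (Nat.card N) N N' hN hN' h rfl).1 κ

end TwoRings

end Pool.Agent.Helper64.Iso
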