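import Mathlib
import Pool.Agent.Helper64.Iso.Modules
import Pool.Agent.Helper64.Iso.Homog
import Pool.Agent.Helper64.Iso.Universal
import Pool.Agent.Helper64.Iso.Abstract

set_option autoImplicit false

namespace Pool.Agent.Helper64.Iso

open Finset

/-- killed by `π ^ r`, and everything killed by `π ^ (r-1)` is divisible by `π` -/
structure IsHom {A : Type} [CommRing A] (π : A) (r : ℕ) (F : Type) [AddCommGroup F]
    [Module A F] : Prop where
  kill : ∀ x : F, π ^ r • x = 0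
  div : ∀ z : F, π ^ (r - 1) • z = 0 → ∃ y, z = π • y

section

variable {A : Type} [CommRing A] [IsDomain A] [IsPrincipalIdealRing A] {π : A} {r : ℕ}

omit [IsDomain A] [IsPrincipalIdealRing A] in
lemma IsHom.congr {F G : Type} [AddCommGroup F] [Module A F] [AddCommGroup G] [Module A G]
    (hF : IsHom π r F) (e : F ≃ₗ[A] G) : IsHom π r G where
  kill x := by
    have h := hF.kill (e.symm x)
    rw [← map_smul] at h
    exact e.symm.map_eq_zero_iff.mp h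
  div z hz := by
    obtain ⟨y, hy⟩ := hF.div (e.symm z) (by rw [← map_smul, hz, map_zero])
    refine ⟨e y, ?_⟩
    rw [← map_smul, ← hy, e.apply_symm_apply]

lemma isHom_pi (hπ : Irreducible π) (hr : 1 ≤ r) (n : ℕ) : IsHom π r (Fin n → cyc π r) where
  kill x := kill_decomp (κ := fun _ => r) π r (fun _ => le_refl r) x
  div z hz := by
    have h : ∀ i, ∃ y : cyc π r, z i = π • y := by
      intro i
      have hi := congrFun hz i
      obtain ⟨w, hw⟩ := Submodule.Quotient.mk_surjective _ (z i)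
      rw [Pi.smul_apply, Pi.zero_apply, ← hw, ← Submodule.Quotient.mk_smul,
        Submodule.Quotient.mk_eq_zero, smul_eq_mul, Submodule.mem_span_singleton] at hi
      obtain ⟨c, hc⟩ := hi
      refine ⟨Submodule.Quotient.mk c, ?_⟩
      rw [← hw, ← Submodule.Quotient.mk_smul]
      congr 1
      rw [smul_eq_mul] at hc ⊢
      have hne : π ^ (r - 1) ≠ 0 := pow_ne_zero _ hπ.ne_zero
      apply mul_left_cancel₀ hne
      rw [← hc]
      have : π ^ r = π ^ (r - 1) * π := by rw [← pow_succ, Nat.sub_add_cancel hr]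
      rw [this]; ring
    choose y hy using h
    exact ⟨y, funext hy⟩

/-- (d) -/
lemma move (hπ : Irreducible π) (hr : 1 ≤ r) {E : Type} [AddCommGroup E] [Module A E] [Finite E]
    (hE : IsHom π r E) (U₁ U₂ W₁ W₂ : Submodule A E) (h₁ : U₁ ≤ W₁) (h₂ : U₂ ≤ W₂)
    (hW : IsHom π r W₁) (e : W₁ ≃ₗ[A] W₂) (ε : U₁ ≃ₗ[A] U₂) :
    ∃ g : E ≃ₗ[A] E, U₁.map g.toLinearMap = U₂ ∧ W₁.map g.toLinearMap = W₂ := by
  let U₀ : Submodule A W₁ := U₁.comap W₁.subtype
  let ι₁ : U₀ →ₗ[A] U₁ := (W₁.subtype ∘ₗ U₀.subtype).codRestrict U₁ (fun x => x.2)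
  have hι₁ : ∀ x : U₀, ((ι₁ x : U₁) : E) = ((x : W₁) : E) := fun x => rfl
  let f : U₀ →ₗ[A] W₁ := e.symm.toLinearMap ∘ₗ (Submodule.inclusion h₂) ∘ₗ ε.toLinearMap ∘ₗ ι₁
  have hf : Function.Injective f := by
    refine e.symm.injective.comp ((Submodule.inclusion_injective h₂).comp (ε.injective.comp ?_))
    intro x y hxy
    apply Subtype.ext
    apply Subtype.ext
    rw [← hι₁, ← hι₁, hxy]
  obtain ⟨g₀, hg₀⟩ := extend_auto hπ r hr W₁ hW.kill hW.div U₀ f hf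
  let φ : W₁ →ₗ[A] E := W₂.subtype ∘ₗ (g₀.trans e).toLinearMap
  have hφ : Function.Injective φ := W₂.injective_subtype.comp (g₀.trans e).injective
  obtain ⟨g, hg⟩ := extend_auto hπ r hr E hE.kill hE.div W₁ φ hφ
  refine ⟨g, ?_, ?_⟩
  · have key : ∀ (x : E) (hx : x ∈ U₁), g x = (ε ⟨x, hx⟩ : E) := by
      intro x hx
      have h3 := hg ⟨x, h₁ hx⟩
      have h4 := hg₀ ⟨⟨x, h₁ hx⟩, hx⟩
      change g x = ((e (g₀ ⟨x, h₁ hx⟩) : W₂) : E) at h3
      rw [h3]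
      have h5 : g₀ ⟨x, h₁ hx⟩ = f ⟨⟨x, h₁ hx⟩, hx⟩ := h4
      rw [h5]
      change ((e (e.symm (Submodule.inclusion h₂ (ε ⟨x, hx⟩))) : W₂) : E) = _
      rw [e.apply_symm_apply]
      rfl
    ext y
    rw [Submodule.mem_map]
    constructor
    · rintro ⟨x, hx, rfl⟩
      change g x ∈ U₂
      rw [key x hx]
      exact (ε ⟨x, hx⟩).2
    · intro hy
      refine ⟨ε.symm ⟨y, hy⟩, (ε.symm ⟨y, hy⟩).2, ?_⟩
      change g _ = y
      rw [key _ (ε.symm ⟨y, hy⟩).2]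
      simp
  · ext y
    rw [Submodule.mem_map]
    constructor
    · rintro ⟨x, hx, rfl⟩
      change g x ∈ W₂
      have h3 := hg ⟨x, hx⟩
      change g x = ((e (g₀ ⟨x, hx⟩) : W₂) : E) at h3
      rw [h3]
      exact (e (g₀ ⟨x, hx⟩)).2
    · intro hy
      refine ⟨g₀.symm (e.symm ⟨y, hy⟩), (g₀.symm (e.symm ⟨y, hy⟩)).2, ?_⟩
      have h3 := hg (g₀.symm (e.symm ⟨y, hy⟩))
      change g _ = ((e (g₀ (g₀.symm (e.symm ⟨y, hy⟩))) : W₂) : E) at h3
      change g _ = y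
      rw [h3]
      simp

/-- (c) -/
lemma move_fix (hπ : Irreducible π) (hr : 1 ≤ r) {E : Type} [AddCommGroup E] [Module A E]
    [Finite E] (hE : IsHom π r E) (U W₁ W₂ : Submodule A E) (hU : U ⊓ W₁ = U ⊓ W₂)
    (hW : IsHom π r W₁) (e : W₁ ≃ₗ[A] W₂) :
    ∃ g : E ≃ₗ[A] E, U.map g.toLinearMap = U ∧ W₁.map g.toLinearMap = W₂ := by
  let U₀ : Submodule A W₁ := U.comap W₁.subtype
  have hmem : ∀ x : U₀, ((x : W₁) : E) ∈ W₂ := by
    intro x
    have h1 : ((x : W₁) : E) ∈ U ⊓ W₁ := ⟨x.2, x.1.2⟩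
    rw [hU] at h1
    exact h1.2
  let ι₁ : U₀ →ₗ[A] W₂ := (W₁.subtype ∘ₗ U₀.subtype).codRestrict W₂ hmem
  have hι₁ : ∀ x : U₀, ((ι₁ x : W₂) : E) = ((x : W₁) : E) := fun x => rfl
  let f : U₀ →ₗ[A] W₁ := e.symm.toLinearMap ∘ₗ ι₁
  have hf : Function.Injective f := by
    refine e.symm.injective.comp ?_
    intro x y hxy
    apply Subtype.ext
    apply Subtype.ext
    rw [← hι₁, ← hι₁, hxy]
  obtain ⟨g₀, hg₀⟩ := extend_auto hπ r hr W₁ hW.kill hW.div U₀ f hf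
  let φ : W₁ ≃ₗ[A] W₂ := g₀.trans e
  have hφ : ∀ (x : E) (hx : x ∈ W₁), x ∈ U → ((φ ⟨x, hx⟩ : W₂) : E) = x := by
    intro x hx hxU
    have h1 := hg₀ ⟨⟨x, hx⟩, hxU⟩
    change ((e (g₀ ⟨x, hx⟩) : W₂) : E) = x
    have h2 : g₀ ⟨x, hx⟩ = f ⟨⟨x, hx⟩, hxU⟩ := h1
    rw [h2]
    change ((e (e.symm (ι₁ ⟨⟨x, hx⟩, hxU⟩)) : W₂) : E) = x
    rw [e.apply_symm_apply]
    rfl
  obtain ⟨h, hinj, hhU, hhW⟩ := glue U W₁ U.subtype (W₂.subtype ∘ₗ φ.toLinearMap) (by
    rintro ⟨u, hu⟩ ⟨w, hw⟩ huw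
    change u = w at huw
    subst huw
    exact (hφ u hw hu).symm) (by
    rintro ⟨u, hu⟩ ⟨w, hw⟩ huw
    change u + ((φ ⟨w, hw⟩ : W₂) : E) = 0 at huw
    change u + w = 0
    have h1 : ((φ ⟨w, hw⟩ : W₂) : E) = -u := eq_neg_of_add_eq_zero_right huw
    have h2 : ((φ ⟨w, hw⟩ : W₂) : E) ∈ U ⊓ W₂ := ⟨by rw [h1]; exact U.neg_mem hu, (φ ⟨w, hw⟩).2⟩
    rw [← hU] at h2
    have h3 := hφ _ h2.2 h2.1
    have h4 : φ ⟨_, h2.2⟩ = φ ⟨w, hw⟩ := Subtype.ext h3
    have h5 := φ.injective h4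
    have h6 : ((φ ⟨w, hw⟩ : W₂) : E) = w := congrArg Subtype.val h5
    rw [← h6, h1, add_neg_cancel])
  obtain ⟨g, hg⟩ := extend_auto hπ r hr E hE.kill hE.div (U ⊔ W₁) h hinj
  have hgU : ∀ u ∈ U, g u = u := by
    intro u hu
    have h1 := hg ⟨u, Submodule.mem_sup_left hu⟩
    rw [hhU ⟨u, hu⟩ (Submodule.mem_sup_left hu)] at h1
    exact h1
  have hgW : ∀ (w : E) (hw : w ∈ W₁), g w = ((φ ⟨w, hw⟩ : W₂) : E) := by
    intro w hw
    have h1 := hg ⟨w, Submodule.mem_sup_right hw⟩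
    rw [hhW ⟨w, hw⟩ (Submodule.mem_sup_right hw)] at h1
    exact h1
  refine ⟨g, ?_, ?_⟩
  · ext y
    rw [Submodule.mem_map]
    constructor
    · rintro ⟨x, hx, rfl⟩
      change g x ∈ U
      rw [hgU x hx]; exact hx
    · intro hy
      exact ⟨y, hy, hgU y hy⟩
  · ext y
    rw [Submodule.mem_map]
    constructor
    · rintro ⟨x, hx, rfl⟩
      change g x ∈ W₂
      rw [hgW x hx]; exact (φ ⟨x, hx⟩).2
    · intro hy
      refine ⟨φ.symm ⟨y, hy⟩, (φ.symm ⟨y, hy⟩).2, ?_⟩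
      change g _ = y
      rw [hgW _ (φ.symm ⟨y, hy⟩).2]
      simp

end

/-- Existence half of Möbius inversion on a finite poset. -/
lemma moebius_exists {P : Type} [Fintype P] [PartialOrder P] [DecidableLE P] (G : P → ℝ) :
    ∃ f : P → ℝ, ∀ V, G V = ∑ V₁ ∈ univ.filter (fun V₁ => V₁ ≤ V), f V₁ := by
  classical
  let T : (P → ℝ) →ₗ[ℝ] (P → ℝ) :=
    { toFun := fun f V => ∑ V₁ ∈ univ.filter (fun V₁ => V₁ ≤ V), f V₁
      map_add' := by
        intro f g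
        funext V
        simp [Finset.sum_add_distrib]
      map_smul' := by
        intro c f
        funext V
        simp [Finset.mul_sum] }
  have hT : Function.Injective T := by
    rw [injective_iff_map_eq_zero]
    intro f hf
    funext V
    induction V using WellFoundedLT.induction with
    | ind V ih =>
      have h1 : ∑ V₁ ∈ univ.filter (fun V₁ => V₁ ≤ V), f V₁ = 0 := congrFun hf V
      have h2 : V ∈ univ.filter (fun V₁ => V₁ ≤ V) := by simp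
      rw [← Finset.add_sum_erase _ _ h2] at h1
      have h3 : ∑ x ∈ (univ.filter (fun V₁ => V₁ ≤ V)).erase V, f x = 0 := by
        refine Finset.sum_eq_zero fun x hx => ?_
        rw [Finset.mem_erase, Finset.mem_filter] at hx
        exact ih x (lt_of_le_of_ne hx.2.2 hx.1)
      rw [h3, add_zero] at h1
      exact h1
  have hT' : Function.Surjective T := LinearMap.injective_iff_surjective.mp hT
  obtain ⟨f, hf⟩ := hT' G
  exact ⟨f, fun V => (congrFun hf V).symm⟩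

end Pool.Agent.Helper64.Iso
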