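import Mathlib
import Pool.Agent.Helper64.Iso.Hecke

set_option autoImplicit false

namespace Pool.Agent.Helper64.Iso

open Finset Matrix

section

variable {A : Type} [CommRing A] (π : A) (E F : Type) [AddCommGroup E] [Module A E]
  [AddCommGroup F] [Module A F]

/-- submodules of `E` isomorphic to `F` -/
abbrev Gr : Type := {W : Submodule A E // Nonempty (W ≃ₗ[A] F)}

variable {E}

open Classical in
/-- incidence number -/
noncomputable def inc (U W : Submodule A E) : ℝ := if U ≤ W then 1 else 0

lemma inc_sq (U W : Submodule A E) : inc U W * inc U W = inc U W := by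
  unfold inc; split_ifs <;> norm_num

lemma inc_ne {U W : Submodule A E} (h : inc U W ≠ 0) : U ≤ W := by
  by_contra hn
  exact h (by unfold inc; rw [if_neg hn])

lemma inc_of_le {U W : Submodule A E} (h : U ≤ W) : inc U W = 1 := by
  unfold inc; rw [if_pos h]

lemma inc_trans (U V W : Submodule A E) : inc U V * inc V W = inc U V * inc V W * inc U W := by
  unfold inc
  by_cases h1 : U ≤ V
  · by_cases h2 : V ≤ W
    · simp [h1, h2, h1.trans h2]
    · simp [h2]
  · simp [h1]

lemma inc_inf (U V W : Submodule A E) : inc U (V ⊓ W) = inc U V * inc U W := by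
  unfold inc
  by_cases h1 : U ≤ V
  · by_cases h2 : U ≤ W
    · simp [h1, h2]
    · simp [h2]
  · simp [h1]

open Classical in
/-- the operator counting common submodules of type `κ` -/
noncomputable def Cm [Fintype (Submodule A E)] (κ : ℕ → ℕ) :
    Matrix (Gr (A := A) E F) (Gr (A := A) E F) ℝ :=
  fun W W' => ∑ U ∈ univ.filter (fun U : Submodule A E => tor π U = κ), inc U W.1 * inc U W'.1

variable {π} {F}

lemma inc_map (g : E ≃ₗ[A] E) (U W : Submodule A E) :
    inc (U.map g.toLinearMap) (W.map g.toLinearMap) = inc U W := by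
  unfold inc
  have : U.map g.toLinearMap ≤ W.map g.toLinearMap ↔ U ≤ W :=
    Submodule.map_le_map_iff_of_injective g.injective U W
  by_cases h : U ≤ W
  · rw [if_pos h, if_pos (this.mpr h)]
  · rw [if_neg h, if_neg (fun h' => h (this.mp h'))]

lemma tor_map (g : E ≃ₗ[A] E) (U : Submodule A E) : tor π (U.map g.toLinearMap) = tor π U :=
  (tor_congr π (g.submoduleMap U)).symm

/-- the bijection of submodules induced by an automorphism -/
noncomputable def subEquiv (g : E ≃ₗ[A] E) : Submodule A E ≃ Submodule A E where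
  toFun U := U.map g.toLinearMap
  invFun U := U.map g.symm.toLinearMap
  left_inv U := by
    change (U.map g.toLinearMap).map g.symm.toLinearMap = U
    rw [← Submodule.map_comp]
    have : g.symm.toLinearMap ∘ₗ g.toLinearMap = LinearMap.id := by ext x; simp
    rw [this, Submodule.map_id]
  right_inv U := by
    change (U.map g.symm.toLinearMap).map g.toLinearMap = U
    rw [← Submodule.map_comp]
    have : g.toLinearMap ∘ₗ g.symm.toLinearMap = LinearMap.id := by ext x; simp
    rw [this, Submodule.map_id]

lemma subEquiv_apply (g : E ≃ₗ[A] E) (U : Submodule A E) :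
    subEquiv g U = U.map g.toLinearMap := rfl

/-- the bijection of the Grassmannian induced by an automorphism -/
noncomputable def grEquiv (g : E ≃ₗ[A] E) : Gr (A := A) E F ≃ Gr (A := A) E F :=
  (subEquiv g).subtypeEquiv (fun W => by
    constructor
    · rintro ⟨e⟩
      exact ⟨(g.submoduleMap W).symm.trans e⟩
    · rintro ⟨e⟩
      exact ⟨(g.submoduleMap W).trans e⟩)

lemma grEquiv_val (g : E ≃ₗ[A] E) (W : Gr (A := A) E F) :
    (grEquiv g W).1 = W.1.map g.toLinearMap := rfl

lemma Cm_invariant [Fintype (Submodule A E)] (κ : ℕ → ℕ) (g : E ≃ₗ[A] E)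
    (W W' : Gr (A := A) E F) : Cm π F κ (grEquiv g W) (grEquiv g W') = Cm π F κ W W' := by
  classical
  unfold Cm
  rw [Finset.sum_filter, Finset.sum_filter]
  rw [← Equiv.sum_comp (subEquiv g)]
  refine Finset.sum_congr rfl fun U _ => ?_
  rw [subEquiv_apply, tor_map, grEquiv_val, grEquiv_val, inc_map, inc_map]

end

section Ideal

variable {A : Type} [CommRing A] [IsDomain A] [IsPrincipalIdealRing A] {π : A} {r : ℕ}
  {E F : Type} [AddCommGroup E] [Module A E] [Finite E] [AddCommGroup F] [Module A F] [Finite F]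
  [Fintype (Submodule A E)] [Fintype (Gr (A := A) E F)]

/-- The family of operators indexed by the types of submodules of `F` satisfies the ideal
property. -/
theorem Cm_good (hπ : Irreducible π) (hr : 1 ≤ r) (hE : IsHom π r E) (hF : IsHom π r F)
    (T : Finset (ℕ → ℕ)) (hT : ∀ κ, κ ∈ T ↔ ∃ L : Submodule A F, tor π L = κ) :
    Good (fun κ : T => κ.1 r) (fun κ : T => Cm (E := E) π F κ.1) := by
  classical
  constructor
  · intro κ
    ext W W'
    rw [transpose_apply]
    unfold Cm
    refine Finset.sum_congr rfl fun U _ => ?_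
    rw [mul_comm]
  · intro κ lam
    have hkillE : ∀ (U : Submodule A E) (x : U), π ^ r • x = 0 := fun U => kill_sub hE.kill U
    have hWF : ∀ W : Gr (A := A) E F, IsHom π r W.1 := fun W => hF.congr W.2.some.symm
    have hWW : ∀ W W' : Gr (A := A) E F, Nonempty (W.1 ≃ₗ[A] W'.1) :=
      fun W W' => ⟨W.2.some.trans W'.2.some.symm⟩
    -- the kernel K
    let K : Submodule A E → Gr (A := A) E F → ℝ :=
      fun U W' => ∑ W'' : Gr (A := A) E F, inc U W''.1 * Cm π F lam.1 W'' W'
    have hKinv : ∀ (g : E ≃ₗ[A] E) U W', K (U.map g.toLinearMap) (grEquiv g W') = K U W' := by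
      intro g U W'
      change ∑ W'' : Gr (A := A) E F, _ = ∑ W'' : Gr (A := A) E F, _
      rw [← Equiv.sum_comp (grEquiv (F := F) g)]
      refine Finset.sum_congr rfl fun W'' _ => ?_
      rw [grEquiv_val, inc_map, Cm_invariant]
    have hKdep : ∀ U W₁ W₂, U ⊓ W₁.1 = U ⊓ W₂.1 → K U W₁ = K U W₂ := by
      intro U W₁ W₂ h
      obtain ⟨e⟩ := hWW W₁ W₂
      obtain ⟨g, hgU, hgW⟩ := move_fix hπ hr hE U W₁.1 W₂.1 h (hWF W₁) e
      have h1 := hKinv g U W₁
      rw [hgU] at h1
      have h2 : grEquiv g W₁ = W₂ := Subtype.ext hgW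
      rw [h2] at h1
      exact h1.symm
    -- Möbius inversion for every U
    have hf : ∀ U : Submodule A E, ∃ f : Submodule A E → ℝ, ∀ W' : Gr (A := A) E F,
        K U W' = ∑ V ∈ univ.filter (fun V => V ≤ U ⊓ W'.1), f V := by
      intro U
      let G : Submodule A E → ℝ := fun V =>
        if h : ∃ W' : Gr (A := A) E F, U ⊓ W'.1 = V then K U h.choose else 0
      obtain ⟨f, hf⟩ := moebius_exists G
      refine ⟨f, fun W' => ?_⟩
      rw [← hf]
      have hex : ∃ W'' : Gr (A := A) E F, U ⊓ W''.1 = U ⊓ W'.1 := ⟨W', rfl⟩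
      change K U W' = if h : ∃ W'' : Gr (A := A) E F, U ⊓ W''.1 = U ⊓ W'.1 then K U h.choose else 0
      rw [dif_pos hex]
      exact hKdep U W' _ hex.choose_spec.symm
    choose f hf using hf
    -- the coefficients
    let c : Submodule A E → Submodule A E → ℝ := fun V W =>
      ∑ U ∈ univ.filter (fun U : Submodule A E => tor π U = κ.1), inc V U * inc U W * f U V
    have hΦ : ∀ W W' : Gr (A := A) E F, (Cm (E := E) π F κ.1 * Cm (E := E) π F lam.1) W W' =
        ∑ V : Submodule A E, inc V W'.1 * c V W.1 := by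
      intro W W'
      have e1 : (Cm (E := E) π F κ.1 * Cm (E := E) π F lam.1) W W' =
          ∑ U ∈ univ.filter (fun U : Submodule A E => tor π U = κ.1), inc U W.1 * K U W' := by
        rw [mul_apply]
        unfold K
        simp_rw [Finset.mul_sum]
        rw [Finset.sum_comm]
        refine Finset.sum_congr rfl fun W'' _ => ?_
        conv_lhs => rw [Cm]
        rw [Finset.sum_mul]
        refine Finset.sum_congr rfl fun U _ => ?_
        rw [mul_assoc]
      rw [e1]
      have e2 : ∀ U : Submodule A E, K U W' = ∑ V : Submodule A E, inc V U * inc V W'.1 * f U V := by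
        intro U
        rw [hf, Finset.sum_filter]
        refine Finset.sum_congr rfl fun V _ => ?_
        unfold inc
        by_cases h1 : V ≤ U
        · by_cases h2 : V ≤ W'.1
          · simp [h1, h2]
          · simp [h1, h2]
        · simp [h1]
      simp_rw [e2, Finset.mul_sum]
      rw [Finset.sum_comm]
      refine Finset.sum_congr rfl fun V _ => ?_
      unfold c
      rw [Finset.mul_sum]
      refine Finset.sum_congr rfl fun U _ => ?_
      ring
    have hc_inc : ∀ V W : Submodule A E, c V W = inc V W * c V W := by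
      intro V W
      unfold c
      rw [Finset.mul_sum]
      refine Finset.sum_congr rfl fun U _ => ?_
      rw [inc_trans V U W]
      have := inc_sq V W
      linear_combination (-(inc V U * inc U W * f U V)) * this
    -- averaging over the group
    have : Finite (E ≃ₗ[A] E) := Finite.of_injective (fun g => (g : E → E)) DFunLike.coe_injective
    have : Fintype (E ≃ₗ[A] E) := Fintype.ofFinite _
    let cb : Submodule A E → Submodule A E → ℝ := fun V W =>
      ∑ g : E ≃ₗ[A] E, c (V.map g.toLinearMap) (W.map g.toLinearMap)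
    have hcb : ∀ (h : E ≃ₗ[A] E) V W, cb (V.map h.toLinearMap) (W.map h.toLinearMap) = cb V W := by
      intro h V W
      unfold cb
      refine Fintype.sum_equiv (Equiv.mulRight h) _ _ fun g => ?_
      rw [Equiv.coe_mulRight]
      have e : (g * h : E ≃ₗ[A] E).toLinearMap = g.toLinearMap ∘ₗ h.toLinearMap := rfl
      rw [e, Submodule.map_comp, Submodule.map_comp]
    have hcard : (0 : ℝ) < Fintype.card (E ≃ₗ[A] E) := by
      exact_mod_cast Fintype.card_pos
    have hΦavg : ∀ W W' : Gr (A := A) E F,
        (Fintype.card (E ≃ₗ[A] E) : ℝ) * (Cm (E := E) π F κ.1 * Cm (E := E) π F lam.1) W W' =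
        ∑ V : Submodule A E, inc V W.1 * inc V W'.1 * cb V W.1 := by
      intro W W'
      have hinv : ∀ g : E ≃ₗ[A] E, (Cm (E := E) π F κ.1 * Cm (E := E) π F lam.1) (grEquiv g W) (grEquiv g W') =
          (Cm (E := E) π F κ.1 * Cm (E := E) π F lam.1) W W' := by
        intro g
        rw [mul_apply, mul_apply, ← Equiv.sum_comp (grEquiv (F := F) g)]
        refine Finset.sum_congr rfl fun W'' _ => ?_
        rw [Cm_invariant, Cm_invariant]
      have e1 : (Fintype.card (E ≃ₗ[A] E) : ℝ) * (Cm (E := E) π F κ.1 * Cm (E := E) π F lam.1) W W' =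
          ∑ g : E ≃ₗ[A] E, (Cm (E := E) π F κ.1 * Cm (E := E) π F lam.1) (grEquiv g W) (grEquiv g W') := by
        rw [Finset.sum_congr rfl (fun g _ => hinv g), Finset.sum_const, Finset.card_univ,
          nsmul_eq_mul]
      rw [e1]
      unfold cb
      simp_rw [Finset.mul_sum]
      rw [Finset.sum_comm]
      refine Finset.sum_congr rfl fun g _ => ?_
      rw [hΦ, ← Equiv.sum_comp (subEquiv g)]
      refine Finset.sum_congr rfl fun V _ => ?_
      rw [subEquiv_apply, grEquiv_val, grEquiv_val, inc_map]
      have h9 := hc_inc (V.map g.toLinearMap) (W.1.map g.toLinearMap)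
      rw [inc_map] at h9
      linear_combination (inc V W'.1) * h9
    -- dependence on the type only
    have hdep : ∀ (V₁ V₂ : Submodule A E) (W₁ W₂ : Gr (A := A) E F), V₁ ≤ W₁.1 → V₂ ≤ W₂.1 →
        tor π V₁ = tor π V₂ → cb V₁ W₁.1 = cb V₂ W₂.1 := by
      intro V₁ V₂ W₁ W₂ h1 h2 ht
      obtain ⟨e⟩ := hWW W₁ W₂
      obtain ⟨ε⟩ := iso_of_tor hπ r V₁ V₂ (hkillE V₁) (hkillE V₂) ht
      obtain ⟨g, hg1, hg2⟩ := move hπ hr hE V₁ V₂ W₁.1 W₂.1 h1 h2 (hWF W₁) e ε
      have h3 := hcb g V₁ W₁.1
      rw [hg1, hg2] at h3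
      exact h3.symm
    let cs : (ℕ → ℕ) → ℝ := fun μ =>
      if h : ∃ p : Submodule A E × Gr (A := A) E F, p.1 ≤ p.2.1 ∧ tor π p.1 = μ then
        cb h.choose.1 h.choose.2.1 else 0
    have hcs : ∀ (V : Submodule A E) (W : Gr (A := A) E F), V ≤ W.1 → cb V W.1 = cs (tor π V) := by
      intro V W hVW
      have hex : ∃ p : Submodule A E × Gr (A := A) E F, p.1 ≤ p.2.1 ∧ tor π p.1 = tor π V :=
        ⟨(V, W), hVW, rfl⟩
      change cb V W.1 = if h : ∃ p : Submodule A E × Gr (A := A) E F, p.1 ≤ p.2.1 ∧
        tor π p.1 = tor π V then cb h.choose.1 h.choose.2.1 else 0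
      rw [dif_pos hex]
      exact hdep V _ W _ hVW hex.choose_spec.1 hex.choose_spec.2.symm
    have hcs0 : ∀ μ : ℕ → ℕ, cs μ ≠ 0 → μ = κ.1 ∨ μ r < κ.1 r := by
      intro μ hμ
      by_cases hex : ∃ p : Submodule A E × Gr (A := A) E F, p.1 ≤ p.2.1 ∧ tor π p.1 = μ
      · have h1 : cs μ = cb hex.choose.1 hex.choose.2.1 := by
          change (if h : ∃ p : Submodule A E × Gr (A := A) E F, p.1 ≤ p.2.1 ∧
            tor π p.1 = μ then cb h.choose.1 h.choose.2.1 else 0) = _
          rw [dif_pos hex]
        rw [h1] at hμ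
        obtain ⟨g, -, hg⟩ := Finset.exists_ne_zero_of_sum_ne_zero hμ
        obtain ⟨U, hU, hU'⟩ := Finset.exists_ne_zero_of_sum_ne_zero hg
        have hle : hex.choose.1.map g.toLinearMap ≤ U := by
          apply inc_ne
          intro h0
          apply hU'
          rw [h0]; ring
        have htU : tor π U = κ.1 := (Finset.mem_filter.mp hU).2
        have hμ' : tor π (hex.choose.1.map g.toLinearMap) = μ := by
          rw [tor_map]; exact hex.choose_spec.2
        rcases eq_or_lt_of_le hle with heq | hlt
        · left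
          rw [← hμ', heq, htU]
        · right
          rw [← hμ', ← htU, tor_top r (hkillE _), tor_top r (hkillE _)]
          exact Set.ncard_lt_ncard hlt (Set.toFinite _)
      · exfalso
        apply hμ
        change (if h : ∃ p : Submodule A E × Gr (A := A) E F, p.1 ≤ p.2.1 ∧
            tor π p.1 = μ then cb h.choose.1 h.choose.2.1 else 0) = _
        rw [dif_neg hex]
    refine ⟨fun μ => (Fintype.card (E ≃ₗ[A] E) : ℝ)⁻¹ * cs μ.1, ?_, ?_⟩
    · intro μ hμ
      have h1 : cs μ.1 ≠ 0 := by
        intro h0
        apply hμ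
        simp only [h0, mul_zero]
      rcases hcs0 μ.1 h1 with h2 | h2
      · exact Or.inl (Subtype.ext h2)
      · exact Or.inr h2
    · ext W W'
      have h1 : (Cm (E := E) π F κ.1 * Cm (E := E) π F lam.1) W W' = (Fintype.card (E ≃ₗ[A] E) : ℝ)⁻¹ *
          ∑ V : Submodule A E, inc V W.1 * inc V W'.1 * cb V W.1 := by
        rw [← hΦavg, ← mul_assoc, inv_mul_cancel₀ hcard.ne', one_mul]
      rw [h1]
      have h2 : (comb (fun κ : T => Cm (E := E) π F κ.1)
          (fun μ => (Fintype.card (E ≃ₗ[A] E) : ℝ)⁻¹ * cs μ.1)) W W' =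
          ∑ μ : T, ((Fintype.card (E ≃ₗ[A] E) : ℝ)⁻¹ * cs μ.1) * Cm π F μ.1 W W' := by
        unfold comb
        rw [Matrix.sum_apply]
        rfl
      rw [h2]
      have h3 : ∑ V : Submodule A E, inc V W.1 * inc V W'.1 * cb V W.1 =
          ∑ μ : T, cs μ.1 * Cm π F μ.1 W W' := by
        have h4 : ∀ V : Submodule A E, inc V W.1 * inc V W'.1 * cb V W.1 =
            ∑ μ : T, (if tor π V = μ.1 then inc V W.1 * inc V W'.1 * cs μ.1 else 0) := by
          intro V
          by_cases hV : V ≤ W.1
          · -- the type of V belongs to T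
            have hVT : tor π V ∈ T := by
              rw [hT]
              let e := W.2.some
              let f : V →ₗ[A] F := e.toLinearMap ∘ₗ Submodule.inclusion hV
              have hfinj : Function.Injective f := e.injective.comp (Submodule.inclusion_injective hV)
              exact ⟨LinearMap.range f, (tor_congr π (LinearEquiv.ofInjective f hfinj)).symm⟩
            rw [Finset.sum_eq_single (⟨tor π V, hVT⟩ : T)]
            · rw [if_pos rfl, hcs V W hV]
            · intro μ _ hμ
              rw [if_neg]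
              intro h
              exact hμ (Subtype.ext h.symm)
            · intro h
              exact absurd (Finset.mem_univ _) h
          · have h5 : inc V W.1 = 0 := by
              unfold inc; rw [if_neg hV]
            rw [h5]
            simp
        simp_rw [h4]
        rw [Finset.sum_comm]
        refine Finset.sum_congr rfl fun μ _ => ?_
        unfold Cm
        rw [Finset.mul_sum, Finset.sum_filter]
        refine Finset.sum_congr rfl fun V _ => ?_
        by_cases h6 : tor π V = μ.1
        · rw [if_pos h6, if_pos h6]; ring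
        · rw [if_neg h6, if_neg h6]
      rw [h3, Finset.mul_sum]
      refine Finset.sum_congr rfl fun μ _ => ?_
      ring

end Ideal

end Pool.Agent.Helper64.Iso
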