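import Mathlib
import Pool.Agent.Helper64.Iso.Hecke2

set_option autoImplicit false

namespace Pool.Agent.Helper64.Iso

open Finset Matrix

section One

variable {A : Type} [CommRing A] {π : A} {E F : Type} [AddCommGroup E] [Module A E]
  [AddCommGroup F] [Module A F]

lemma nsub_eq (L : Submodule A E) (κ : ℕ → ℕ) :
    nsub π L κ = Nat.card {U : Submodule A E // U ≤ L ∧ tor π U = κ} := by
  refine Nat.card_congr ⟨fun U => ⟨U.1.map L.subtype, ?_, ?_⟩, fun U =>
    ⟨U.1.comap L.subtype, ?_⟩, ?_, ?_⟩
  · exact Submodule.map_subtype_le L U.1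
  · exact ((tor_congr π
      (Submodule.equivMapOfInjective L.subtype L.injective_subtype U.1)).symm).trans U.2
  · have h : (U.1.comap L.subtype).map L.subtype = U.1 := by
      rw [Submodule.map_comap_subtype, inf_eq_right]
      exact U.2.1
    have h2 := tor_congr π
      (Submodule.equivMapOfInjective L.subtype L.injective_subtype (U.1.comap L.subtype))
    rw [h2, h, U.2.2]
  · intro U
    apply Subtype.ext
    exact Submodule.comap_map_eq_of_injective L.injective_subtype U.1
  · intro U
    apply Subtype.ext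
    change (U.1.comap L.subtype).map L.subtype = U.1
    rw [Submodule.map_comap_subtype, inf_eq_right]
    exact U.2.1

open Classical in
lemma Cm_eq [Fintype (Submodule A E)] (κ : ℕ → ℕ) (W W' : Gr (A := A) E F) :
    Cm π F κ W W' = (nsub π (W.1 ⊓ W'.1 : Submodule A E) κ : ℝ) := by
  rw [nsub_eq, Nat.card_eq_fintype_card, Fintype.card_subtype]
  unfold Cm
  simp_rw [← inc_inf]
  unfold inc
  rw [Finset.sum_boole, Finset.filter_filter]
  congr 2
  ext U
  simp only [Finset.mem_filter, Finset.mem_univ, true_and]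
  exact and_comm

/-- number of members of the Grassmannian above `U` -/
noncomputable def above (F : Type) [AddCommGroup F] [Module A F] (U : Submodule A E) : ℕ :=
  Nat.card {W : Gr (A := A) E F // U ≤ W.1}

open Classical in
lemma dc_one [Fintype (Submodule A E)] [Fintype (Gr (A := A) E F)] (κ : ℕ → ℕ) :
    ∑ W : Gr (A := A) E F, nsub π W.1 κ =
      ∑ U ∈ univ.filter (fun U : Submodule A E => tor π U = κ), above F U := by
  simp_rw [nsub_eq, above, Nat.card_eq_fintype_card, Fintype.card_subtype,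
    Finset.card_filter]
  rw [Finset.sum_comm, Finset.sum_filter]
  refine Finset.sum_congr rfl fun U _ => ?_
  by_cases h : tor π U = κ
  · simp [h]
  · simp [h]

open Classical in
lemma dc_two [Fintype (Submodule A E)] [Fintype (Gr (A := A) E F)] (κ : ℕ → ℕ) :
    ∑ p : Gr (A := A) E F × Gr (A := A) E F, nsub π (p.1.1 ⊓ p.2.1 : Submodule A E) κ =
      ∑ U ∈ univ.filter (fun U : Submodule A E => tor π U = κ), above F U ^ 2 := by
  simp_rw [nsub_eq, above, Nat.card_eq_fintype_card, Fintype.card_subtype,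
    Finset.card_filter]
  rw [Finset.sum_comm, Finset.sum_filter]
  refine Finset.sum_congr rfl fun U _ => ?_
  by_cases h : tor π U = κ
  · simp only [h, le_inf_iff, and_true, if_true]
    rw [sq, Finset.sum_mul_sum, Fintype.sum_prod_type]
    refine Finset.sum_congr rfl fun W _ => Finset.sum_congr rfl fun W' _ => ?_
    by_cases h1 : U ≤ W.1
    · by_cases h2 : U ≤ W'.1
      · simp [h1, h2]
      · simp [h2]
    · simp [h1]
  · simp [h]

end One

section OnePID

variable {A : Type} [CommRing A] [IsDomain A] [IsPrincipalIdealRing A] {π : A} {r : ℕ}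
  {E F : Type} [AddCommGroup E] [Module A E] [Finite E] [AddCommGroup F] [Module A F] [Finite F]

lemma card_gr (hπ : Irreducible π) (hE : IsHom π r E) (hF : IsHom π r F) :
    Nat.card (Gr (A := A) E F) = nsub π E (tor π F) := by
  refine Nat.card_congr (Equiv.subtypeEquivRight fun W => ?_)
  constructor
  · rintro ⟨e⟩
    exact tor_congr π e
  · intro h
    exact iso_of_tor hπ r W F (kill_sub hE.kill W) hF.kill h

lemma above_congr (hπ : Irreducible π) (hr : 1 ≤ r) (hE : IsHom π r E) (U₁ U₂ : Submodule A E)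
    (h : tor π U₁ = tor π U₂) : above F U₁ = above F U₂ := by
  obtain ⟨ε⟩ := iso_of_tor hπ r U₁ U₂ (kill_sub hE.kill U₁) (kill_sub hE.kill U₂) h
  obtain ⟨g, hg, -⟩ := move hπ hr hE U₁ U₂ ⊤ ⊤ le_top le_top (hE.congr Submodule.topEquiv.symm)
    (LinearEquiv.refl A _) ε
  refine Nat.card_congr ((grEquiv (F := F) g).subtypeEquiv fun W => ?_)
  rw [grEquiv_val, ← hg]
  exact (Submodule.map_le_map_iff_of_injective g.injective U₁ W.1).symm

end OnePID

section Two

variable {A : Type} [CommRing A] [IsDomain A] [IsPrincipalIdealRing A] {π : A} {r : ℕ}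
  {E F : Type} [AddCommGroup E] [Module A E] [Finite E] [AddCommGroup F] [Module A F] [Finite F]
  {A' : Type} [CommRing A'] [IsDomain A'] [IsPrincipalIdealRing A'] {π' : A'}
  {E' F' : Type} [AddCommGroup E'] [Module A' E'] [Finite E'] [AddCommGroup F'] [Module A' F']
  [Finite F']

/-- all hypotheses for two rings -/
structure Twin (π : A) (π' : A') (r : ℕ) (E F E' F' : Type) [AddCommGroup E] [Module A E]
    [AddCommGroup F] [Module A F] [AddCommGroup E'] [Module A' E'] [AddCommGroup F']
    [Module A' F'] : Prop where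
  irr : Irreducible π
  irr' : Irreducible π'
  hr : 1 ≤ r
  hq : Nat.card (cyc π 1) = Nat.card (cyc π' 1)
  hq0 : Nat.card (cyc π' 1) ≠ 0
  hE : IsHom π r E
  hF : IsHom π r F
  hE' : IsHom π' r E'
  hF' : IsHom π' r F'
  torE : tor π E = tor π' E'
  torF : tor π F = tor π' F'

variable (H : Twin π π' r E F E' F')

include H

lemma Twin.nsub_eq {N N' : Type} [AddCommGroup N] [Module A N] [Finite N] [AddCommGroup N']
    [Module A' N'] [Finite N'] (hN : ∀ x : N, π ^ r • x = 0) (hN' : ∀ x : N', π' ^ r • x = 0)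
    (h : tor π N = tor π' N') (κ : ℕ → ℕ) : nsub π N κ = nsub π' N' κ :=
  nsub_univ H.irr H.irr' H.hq H.hq0 r N N' hN hN' h κ

lemma Twin.card_gr : Nat.card (Gr (A := A) E F) = Nat.card (Gr (A := A') E' F') := by
  rw [Iso.card_gr H.irr H.hE H.hF, Iso.card_gr H.irr' H.hE' H.hF', H.torF]
  exact H.nsub_eq H.hE.kill H.hE'.kill H.torE _

lemma Twin.tor_gr (W : Gr (A := A) E F) (W' : Gr (A := A') E' F') :
    tor π W.1 = tor π' W'.1 := by
  rw [tor_congr π W.2.some, tor_congr π' W'.2.some, H.torF]

lemma Twin.above_eq (U : Submodule A E) (U' : Submodule A' E') (h : tor π U = tor π' U') :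
    above F U = above F' U' := by
  classical
  have : Fintype (Submodule A E) := Fintype.ofFinite _
  have : Fintype (Submodule A' E') := Fintype.ofFinite _
  have : Fintype (Gr (A := A) E F) := Fintype.ofFinite _
  have : Fintype (Gr (A := A') E' F') := Fintype.ofFinite _
  have e1 := dc_one (π := π) (E := E) (F := F) (tor π U)
  have e2 := dc_one (π := π') (E := E') (F := F') (tor π U)
  have e3 : ∑ W : Gr (A := A) E F, nsub π W.1 (tor π U) =
      Nat.card (Gr (A := A) E F) * nsub π F (tor π U) := by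
    rw [Finset.sum_congr rfl (g := fun _ => nsub π F (tor π U)), Finset.sum_const,
      Finset.card_univ, smul_eq_mul, Nat.card_eq_fintype_card]
    intro W _
    exact nsub_univ H.irr H.irr rfl (by rw [H.hq]; exact H.hq0) r W.1 F
      (kill_sub H.hE.kill W.1) H.hF.kill (tor_congr π W.2.some) _
  have e4 : ∑ W : Gr (A := A') E' F', nsub π' W.1 (tor π U) =
      Nat.card (Gr (A := A') E' F') * nsub π' F' (tor π U) := by
    rw [Finset.sum_congr rfl (g := fun _ => nsub π' F' (tor π U)), Finset.sum_const,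
      Finset.card_univ, smul_eq_mul, Nat.card_eq_fintype_card]
    intro W _
    exact nsub_univ H.irr' H.irr' rfl H.hq0 r W.1 F'
      (kill_sub H.hE'.kill W.1) H.hF'.kill (tor_congr π' W.2.some) _
  have e5 : ∑ V ∈ univ.filter (fun V : Submodule A E => tor π V = tor π U), above F V =
      nsub π E (tor π U) * above F U := by
    rw [Finset.sum_congr rfl (g := fun _ => above F U), Finset.sum_const, smul_eq_mul, nsub,
      Nat.card_eq_fintype_card, Fintype.card_subtype]
    intro V hV
    exact above_congr H.irr H.hr H.hE V U (Finset.mem_filter.mp hV).2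
  have e6 : ∑ V ∈ univ.filter (fun V : Submodule A' E' => tor π' V = tor π U), above F' V =
      nsub π' E' (tor π U) * above F' U' := by
    rw [Finset.sum_congr rfl (g := fun _ => above F' U'), Finset.sum_const, smul_eq_mul, nsub,
      Nat.card_eq_fintype_card, Fintype.card_subtype]
    intro V hV
    exact above_congr H.irr' H.hr H.hE' V U' ((Finset.mem_filter.mp hV).2.trans h)
  rw [e3, e5, H.card_gr, H.nsub_eq H.hF.kill H.hF'.kill H.torF,
    H.nsub_eq H.hE.kill H.hE'.kill H.torE] at e1
  rw [e4, e6, e1] at e2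
  have hpos : 0 < nsub π' E' (tor π U) := by
    rw [nsub]
    have : Nonempty {L : Submodule A' E' // tor π' L = tor π U} := ⟨⟨U', h.symm⟩⟩
    exact Nat.card_pos
  exact Nat.eq_of_mul_eq_mul_left hpos e2

/-- the number of pairs with intersection of a given type -/
lemma Twin.pairs (κ : ℕ → ℕ) :
    Nat.card {p : Gr (A := A) E F × Gr (A := A) E F //
      tor π (p.1.1 ⊓ p.2.1 : Submodule A E) = κ} =
    Nat.card {p : Gr (A := A') E' F' × Gr (A := A') E' F' //
      tor π' (p.1.1 ⊓ p.2.1 : Submodule A' E') = κ} := by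
  classical
  have : Fintype (Submodule A E) := Fintype.ofFinite _
  have : Fintype (Submodule A' E') := Fintype.ofFinite _
  have : Fintype (Gr (A := A) E F) := Fintype.ofFinite _
  have : Fintype (Gr (A := A') E' F') := Fintype.ofFinite _
  have hkill : ∀ (U : Submodule A E) (x : U), π ^ r • x = 0 := fun U => kill_sub H.hE.kill U
  have hkill' : ∀ (U : Submodule A' E') (x : U), π' ^ r • x = 0 :=
    fun U => kill_sub H.hE'.kill U
  -- sizes are bounded
  have hb : ∀ p : Gr (A := A) E F × Gr (A := A) E F,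
      tor π (p.1.1 ⊓ p.2.1 : Submodule A E) r ≤ tor π F r := by
    intro p
    rw [← tor_congr π p.1.2.some, tor_top r (hkill _), tor_top r (hkill _)]
    exact Nat.card_mono (Set.toFinite _) inf_le_left
  have hb' : ∀ p : Gr (A := A') E' F' × Gr (A := A') E' F',
      tor π' (p.1.1 ⊓ p.2.1 : Submodule A' E') r ≤ tor π F r := by
    intro p
    rw [H.torF, ← tor_congr π' p.1.2.some, tor_top r (hkill' _), tor_top r (hkill' _)]
    exact Nat.card_mono (Set.toFinite _) inf_le_left
  have hbig : ∀ μ : ℕ → ℕ, tor π F r < μ r →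
      Nat.card {p : Gr (A := A) E F × Gr (A := A) E F //
      tor π (p.1.1 ⊓ p.2.1 : Submodule A E) = μ} =
    Nat.card {p : Gr (A := A') E' F' × Gr (A := A') E' F' //
      tor π' (p.1.1 ⊓ p.2.1 : Submodule A' E') = μ} := by
    intro μ hμ
    have z1 : Nat.card {p : Gr (A := A) E F × Gr (A := A) E F //
      tor π (p.1.1 ⊓ p.2.1 : Submodule A E) = μ} = 0 := by
      rw [Nat.card_eq_zero]
      left
      refine ⟨fun p => ?_⟩
      have := hb p.1
      rw [p.2] at this
      omega
    have z2 : Nat.card {p : Gr (A := A') E' F' × Gr (A := A') E' F' //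
      tor π' (p.1.1 ⊓ p.2.1 : Submodule A' E') = μ} = 0 := by
      rw [Nat.card_eq_zero]
      left
      refine ⟨fun p => ?_⟩
      have := hb' p.1
      rw [p.2] at this
      omega
    rw [z1, z2]
  suffices Hs : ∀ (m : ℕ) (κ : ℕ → ℕ), tor π F r - κ r = m →
      Nat.card {p : Gr (A := A) E F × Gr (A := A) E F //
      tor π (p.1.1 ⊓ p.2.1 : Submodule A E) = κ} =
    Nat.card {p : Gr (A := A') E' F' × Gr (A := A') E' F' //
      tor π' (p.1.1 ⊓ p.2.1 : Submodule A' E') = κ} from Hs _ κ rfl
  intro m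
  induction m using Nat.strong_induction_on with
  | _ m ih =>
    intro κ hκ
    by_cases hκb : tor π F r < κ r
    · exact hbig κ hκb
    push Not at hκb
    -- the double count
    have d1 := dc_two (π := π) (E := E) (F := F) κ
    have d2 := dc_two (π := π') (E := E') (F := F') κ
    have d3 : ∑ U ∈ univ.filter (fun U : Submodule A E => tor π U = κ), above F U ^ 2 =
        ∑ U ∈ univ.filter (fun U : Submodule A' E' => tor π' U = κ), above F' U ^ 2 := by
      refine sum_transfer (fun U : Submodule A E => tor π U) (fun U : Submodule A' E' => tor π' U)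
        (fun μ => μ = κ) (fun U => above F U ^ 2) (fun U => above F' U ^ 2) ?_ ?_
      · intro μ _
        exact H.nsub_eq H.hE.kill H.hE'.kill H.torE μ
      · intro U U' h _
        rw [H.above_eq U U' h]
    rw [← d1, ← d2] at d3
    -- splitting
    have hone : ∀ (L : Submodule A E), tor π L = κ → nsub π L κ = 1 := by
      intro L hL
      rw [Iso.nsub_eq, Nat.card_eq_one_iff_unique]
      refine ⟨⟨?_⟩, ⟨⟨L, le_refl L, hL⟩⟩⟩
      have huniq : ∀ U : {U : Submodule A E // U ≤ L ∧ tor π U = κ}, U.1 = L := by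
        intro U
        by_contra hne
        have hlt : (U.1 : Set E) ⊂ L := lt_of_le_of_ne U.2.1 (fun h => hne (SetLike.coe_injective h))
        have h1 := Set.ncard_lt_ncard hlt (Set.toFinite _)
        have h2 : Nat.card U.1 < Nat.card L := h1
        rw [← tor_top r (hkill U.1), ← tor_top r (hkill L), U.2.2, hL] at h2
        exact lt_irrefl _ h2
      intro a b
      exact Subtype.ext ((huniq a).trans (huniq b).symm)
    have hone' : ∀ (L : Submodule A' E'), tor π' L = κ → nsub π' L κ = 1 := by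
      intro L hL
      rw [Iso.nsub_eq, Nat.card_eq_one_iff_unique]
      refine ⟨⟨?_⟩, ⟨⟨L, le_refl L, hL⟩⟩⟩
      have huniq : ∀ U : {U : Submodule A' E' // U ≤ L ∧ tor π' U = κ}, U.1 = L := by
        intro U
        by_contra hne
        have hlt : (U.1 : Set E') ⊂ L :=
          lt_of_le_of_ne U.2.1 (fun h => hne (SetLike.coe_injective h))
        have h1 := Set.ncard_lt_ncard hlt (Set.toFinite _)
        have h2 : Nat.card U.1 < Nat.card L := h1
        rw [← tor_top r (hkill' U.1), ← tor_top r (hkill' L), U.2.2, hL] at h2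
        exact lt_irrefl _ h2
      intro a b
      exact Subtype.ext ((huniq a).trans (huniq b).symm)
    have hzero : ∀ (L : Submodule A E), tor π L ≠ κ → ¬ κ r < tor π L r → nsub π L κ = 0 := by
      intro L hL hlt
      rw [Iso.nsub_eq, Nat.card_eq_zero]
      left
      refine ⟨fun U => ?_⟩
      rcases eq_or_lt_of_le U.2.1 with h | h
      · apply hL
        rw [← h]; exact U.2.2
      · apply hlt
        have h1 := Set.ncard_lt_ncard (show (U.1 : Set E) ⊂ L from h) (Set.toFinite _)
        have h2 : Nat.card U.1 < Nat.card L := h1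
        rw [← tor_top r (hkill U.1), ← tor_top r (hkill L), U.2.2] at h2
        exact h2
    have hzero' : ∀ (L : Submodule A' E'), tor π' L ≠ κ → ¬ κ r < tor π' L r →
        nsub π' L κ = 0 := by
      intro L hL hlt
      rw [Iso.nsub_eq, Nat.card_eq_zero]
      left
      refine ⟨fun U => ?_⟩
      rcases eq_or_lt_of_le U.2.1 with h | h
      · apply hL
        rw [← h]; exact U.2.2
      · apply hlt
        have h1 := Set.ncard_lt_ncard (show (U.1 : Set E') ⊂ L from h) (Set.toFinite _)
        have h2 : Nat.card U.1 < Nat.card L := h1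
        rw [← tor_top r (hkill' U.1), ← tor_top r (hkill' L), U.2.2] at h2
        exact h2
    have s1 : ∀ p : Gr (A := A) E F × Gr (A := A) E F,
        nsub π (p.1.1 ⊓ p.2.1 : Submodule A E) κ =
        (if tor π (p.1.1 ⊓ p.2.1 : Submodule A E) = κ then 1 else 0) +
        (if κ r < tor π (p.1.1 ⊓ p.2.1 : Submodule A E) r then
          nsub π (p.1.1 ⊓ p.2.1 : Submodule A E) κ else 0) := by
      intro p
      by_cases h1 : tor π (p.1.1 ⊓ p.2.1 : Submodule A E) = κ
      · have h2 : ¬ κ r < tor π (p.1.1 ⊓ p.2.1 : Submodule A E) r := by rw [h1]; omega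
        rw [if_pos h1, if_neg h2, hone _ h1]
      · by_cases h2 : κ r < tor π (p.1.1 ⊓ p.2.1 : Submodule A E) r
        · rw [if_neg h1, if_pos h2, zero_add]
        · rw [if_neg h1, if_neg h2, hzero _ h1 h2]
    have s2 : ∀ p : Gr (A := A') E' F' × Gr (A := A') E' F',
        nsub π' (p.1.1 ⊓ p.2.1 : Submodule A' E') κ =
        (if tor π' (p.1.1 ⊓ p.2.1 : Submodule A' E') = κ then 1 else 0) +
        (if κ r < tor π' (p.1.1 ⊓ p.2.1 : Submodule A' E') r then
          nsub π' (p.1.1 ⊓ p.2.1 : Submodule A' E') κ else 0) := by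
      intro p
      by_cases h1 : tor π' (p.1.1 ⊓ p.2.1 : Submodule A' E') = κ
      · have h2 : ¬ κ r < tor π' (p.1.1 ⊓ p.2.1 : Submodule A' E') r := by rw [h1]; omega
        rw [if_pos h1, if_neg h2, hone' _ h1]
      · by_cases h2 : κ r < tor π' (p.1.1 ⊓ p.2.1 : Submodule A' E') r
        · rw [if_neg h1, if_pos h2, zero_add]
        · rw [if_neg h1, if_neg h2, hzero' _ h1 h2]
    rw [Finset.sum_congr rfl (fun p _ => s1 p), Finset.sum_congr rfl (fun p _ => s2 p),
      Finset.sum_add_distrib, Finset.sum_add_distrib, ← Finset.sum_filter, ← Finset.sum_filter,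
      ← Finset.sum_filter, ← Finset.sum_filter] at d3
    have s3 : ∑ p ∈ univ.filter (fun p : Gr (A := A) E F × Gr (A := A) E F =>
          κ r < tor π (p.1.1 ⊓ p.2.1 : Submodule A E) r),
          nsub π (p.1.1 ⊓ p.2.1 : Submodule A E) κ =
        ∑ p ∈ univ.filter (fun p : Gr (A := A') E' F' × Gr (A := A') E' F' =>
          κ r < tor π' (p.1.1 ⊓ p.2.1 : Submodule A' E') r),
          nsub π' (p.1.1 ⊓ p.2.1 : Submodule A' E') κ := by
      refine sum_transfer
        (fun p : Gr (A := A) E F × Gr (A := A) E F => tor π (p.1.1 ⊓ p.2.1 : Submodule A E))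
        (fun p : Gr (A := A') E' F' × Gr (A := A') E' F' =>
          tor π' (p.1.1 ⊓ p.2.1 : Submodule A' E'))
        (fun μ => κ r < μ r) (fun p => nsub π (p.1.1 ⊓ p.2.1 : Submodule A E) κ)
        (fun p => nsub π' (p.1.1 ⊓ p.2.1 : Submodule A' E') κ) ?_ ?_
      · intro μ hμ
        by_cases hμb : tor π F r < μ r
        · exact hbig μ hμb
        · exact ih (tor π F r - μ r) (by omega) μ rfl
      · intro p p' hpp _
        exact H.nsub_eq (hkill _) (hkill' _) hpp κ
    rw [s3] at d3
    have d4 := Nat.add_right_cancel d3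
    rw [Finset.sum_const, Finset.sum_const, smul_eq_mul, smul_eq_mul, mul_one, mul_one] at d4
    rw [Nat.card_eq_fintype_card, Nat.card_eq_fintype_card, Fintype.card_subtype,
      Fintype.card_subtype]
    exact d4

variable [Fintype (Submodule A E)] [Fintype (Gr (A := A) E F)]
  [Fintype (Submodule A' E')] [Fintype (Gr (A := A') E' F')]

lemma Twin.sum_pairs (G : (ℕ → ℕ) → ℕ) :
    ∑ p : Gr (A := A) E F × Gr (A := A) E F, G (tor π (p.1.1 ⊓ p.2.1 : Submodule A E)) =
    ∑ p : Gr (A := A') E' F' × Gr (A := A') E' F', G (tor π' (p.1.1 ⊓ p.2.1 : Submodule A' E')) := by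
  classical
  have h := sum_transfer
        (fun p : Gr (A := A) E F × Gr (A := A) E F => tor π (p.1.1 ⊓ p.2.1 : Submodule A E))
        (fun p : Gr (A := A') E' F' × Gr (A := A') E' F' =>
          tor π' (p.1.1 ⊓ p.2.1 : Submodule A' E'))
        (fun _ => True) (fun p => G (tor π (p.1.1 ⊓ p.2.1 : Submodule A E)))
        (fun p => G (tor π' (p.1.1 ⊓ p.2.1 : Submodule A' E')))
        (fun μ _ => H.pairs μ) (fun p p' hpp _ => by rw [hpp])
  simpa using h

lemma Twin.gram (κ lam : ℕ → ℕ) :
    trace (Cm (E := E) π F κ * Cm (E := E) π F lam) =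
      trace (Cm (E := E') π' F' κ * Cm (E := E') π' F' lam) := by
  classical
  have hkill : ∀ (U : Submodule A E) (x : U), π ^ r • x = 0 := fun U => kill_sub H.hE.kill U
  have hkill' : ∀ (U : Submodule A' E') (x : U), π' ^ r • x = 0 :=
    fun U => kill_sub H.hE'.kill U
  have e1 : trace (Cm (E := E) π F κ * Cm (E := E) π F lam) =
      ((∑ p : Gr (A := A) E F × Gr (A := A) E F, nsub π (p.1.1 ⊓ p.2.1 : Submodule A E) κ *
        nsub π (p.1.1 ⊓ p.2.1 : Submodule A E) lam : ℕ) : ℝ) := by
    push_cast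
    rw [Fintype.sum_prod_type]
    simp only [trace, diag_apply, mul_apply]
    refine Finset.sum_congr rfl fun W _ => Finset.sum_congr rfl fun W' _ => ?_
    rw [Cm_eq, Cm_eq, inf_comm W'.1 W.1]
  have e2 : trace (Cm (E := E') π' F' κ * Cm (E := E') π' F' lam) =
      ((∑ p : Gr (A := A') E' F' × Gr (A := A') E' F',
        nsub π' (p.1.1 ⊓ p.2.1 : Submodule A' E') κ *
        nsub π' (p.1.1 ⊓ p.2.1 : Submodule A' E') lam : ℕ) : ℝ) := by
    push_cast
    rw [Fintype.sum_prod_type]
    simp only [trace, diag_apply, mul_apply]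
    refine Finset.sum_congr rfl fun W _ => Finset.sum_congr rfl fun W' _ => ?_
    rw [Cm_eq, Cm_eq, inf_comm W'.1 W.1]
  rw [e1, e2]
  congr 1
  have h := sum_transfer
        (fun p : Gr (A := A) E F × Gr (A := A) E F => tor π (p.1.1 ⊓ p.2.1 : Submodule A E))
        (fun p : Gr (A := A') E' F' × Gr (A := A') E' F' =>
          tor π' (p.1.1 ⊓ p.2.1 : Submodule A' E'))
        (fun _ => True) (fun p => nsub π (p.1.1 ⊓ p.2.1 : Submodule A E) κ *
        nsub π (p.1.1 ⊓ p.2.1 : Submodule A E) lam)
        (fun p => nsub π' (p.1.1 ⊓ p.2.1 : Submodule A' E') κ *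
        nsub π' (p.1.1 ⊓ p.2.1 : Submodule A' E') lam)
        (fun μ _ => H.pairs μ) (fun p p' hpp _ => by
          rw [H.nsub_eq (hkill _) (hkill' _) hpp κ, H.nsub_eq (hkill _) (hkill' _) hpp lam])
  simpa using h

lemma Twin.tr (κ : ℕ → ℕ) :
    trace (Cm (E := E) π F κ) = trace (Cm (E := E') π' F' κ) := by
  classical
  have hkill : ∀ (U : Submodule A E) (x : U), π ^ r • x = 0 := fun U => kill_sub H.hE.kill U
  have hkill' : ∀ (U : Submodule A' E') (x : U), π' ^ r • x = 0 :=
    fun U => kill_sub H.hE'.kill U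
  have e1 : trace (Cm (E := E) π F κ) = ((Nat.card (Gr (A := A) E F) * nsub π F κ : ℕ) : ℝ) := by
    simp only [trace, diag_apply]
    rw [Finset.sum_congr rfl (g := fun _ => ((nsub π F κ : ℕ) : ℝ)), Finset.sum_const,
      Finset.card_univ, nsmul_eq_mul, Nat.card_eq_fintype_card]
    · push_cast; rfl
    · intro W _
      rw [Cm_eq, inf_idem]
      congr 1
      exact nsub_univ H.irr H.irr rfl (by rw [H.hq]; exact H.hq0) r W.1 F
        (hkill W.1) H.hF.kill (tor_congr π W.2.some) _
  have e2 : trace (Cm (E := E') π' F' κ) =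
      ((Nat.card (Gr (A := A') E' F') * nsub π' F' κ : ℕ) : ℝ) := by
    simp only [trace, diag_apply]
    rw [Finset.sum_congr rfl (g := fun _ => ((nsub π' F' κ : ℕ) : ℝ)), Finset.sum_const,
      Finset.card_univ, nsmul_eq_mul, Nat.card_eq_fintype_card]
    · push_cast; rfl
    · intro W _
      rw [Cm_eq, inf_idem]
      congr 1
      exact nsub_univ H.irr' H.irr' rfl H.hq0 r W.1 F'
        (hkill' W.1) H.hF'.kill (tor_congr π' W.2.some) _
  rw [e1, e2, H.card_gr, H.nsub_eq H.hF.kill H.hF'.kill H.torF]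

open Classical in
/-- Traces of all powers of the counting operators agree. -/
theorem Twin.trace_pow (κ : ℕ → ℕ) (hκ : ∃ L : Submodule A F, tor π L = κ) (k : ℕ) :
    trace (Cm (E := E) π F κ ^ (k + 1)) = trace (Cm (E := E') π' F' κ ^ (k + 1)) := by
  classical
  have : Fintype (Submodule A F) := Fintype.ofFinite _
  set T : Finset (ℕ → ℕ) := univ.image (fun L : Submodule A F => tor π L) with hT
  have hT1 : ∀ κ, κ ∈ T ↔ ∃ L : Submodule A F, tor π L = κ := by
    intro κ
    simp [hT]
  have hpos : ∀ (κ : ℕ → ℕ), (∃ L : Submodule A F, tor π L = κ) ↔ 0 < nsub π F κ := by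
    intro κ
    rw [nsub, Nat.card_pos_iff]
    constructor
    · rintro ⟨L, hL⟩
      exact ⟨⟨⟨L, hL⟩⟩, inferInstance⟩
    · rintro ⟨⟨L⟩, -⟩
      exact ⟨L.1, L.2⟩
  have hpos' : ∀ (κ : ℕ → ℕ), (∃ L : Submodule A' F', tor π' L = κ) ↔ 0 < nsub π' F' κ := by
    intro κ
    rw [nsub, Nat.card_pos_iff]
    constructor
    · rintro ⟨L, hL⟩
      exact ⟨⟨⟨L, hL⟩⟩, inferInstance⟩
    · rintro ⟨⟨L⟩, -⟩
      exact ⟨L.1, L.2⟩
  have hT2 : ∀ κ, κ ∈ T ↔ ∃ L : Submodule A' F', tor π' L = κ := by
    intro κ
    rw [hT1, hpos, hpos', H.nsub_eq H.hF.kill H.hF'.kill H.torF]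
  exact trace_pow_eq (Cm_good H.irr H.hr H.hE H.hF T hT1) (Cm_good H.irr' H.hr H.hE' H.hF' T hT2)
    (fun κ => H.tr κ.1) (fun κ lam => H.gram κ.1 lam.1) ⟨κ, (hT1 κ).mpr hκ⟩ k

end Two

end Pool.Agent.Helper64.Iso
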