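import Mathlib

set_option autoImplicit false

namespace Pool.Agent.Helper64.Iso

open Matrix Finset Polynomial

section

variable {X : Type} [Fintype X] [DecidableEq X]

/-- trace of a power of a Hermitian matrix -/
lemma trace_pow_hermitian (A : Matrix X X ℝ) (hA : A.IsHermitian) (k : ℕ) :
    trace (A ^ k) = ∑ i, hA.eigenvalues i ^ k := by
  have h := hA.spectral_theorem
  have hk : A ^ k = Unitary.conjStarAlgAut ℝ _ hA.eigenvectorUnitary
      ((diagonal (RCLike.ofReal ∘ hA.eigenvalues)) ^ k) := by
    conv_lhs => rw [h]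
    rw [← map_pow]
  rw [hk, Unitary.conjStarAlgAut_apply, trace_mul_cycle, diagonal_pow]
  simp [trace_diagonal]

end

lemma sum_eval_eq {I J : Type} [Fintype I] [Fintype J] (x : I → ℝ) (y : J → ℝ)
    (h : ∀ k : ℕ, ∑ i, x i ^ k = ∑ j, y j ^ k) (f : ℝ[X]) :
    ∑ i, f.eval (x i) = ∑ j, f.eval (y j) := by
  induction f using Polynomial.induction_on' with
  | add p q hp hq => simp [Finset.sum_add_distrib, hp, hq]
  | monomial n a =>
    simp only [eval_monomial]
    rw [← Finset.mul_sum, ← Finset.mul_sum, h n]

lemma card_fiber_eq {I J : Type} [Fintype I] [Fintype J] (x : I → ℝ) (y : J → ℝ)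
    (h : ∀ k : ℕ, ∑ i, x i ^ k = ∑ j, y j ^ k) (z : ℝ) :
    (univ.filter fun i => x i = z).card = (univ.filter fun j => y j = z).card := by
  classical
  set S : Finset ℝ := (univ.image x ∪ univ.image y).erase z with hS
  set f : ℝ[X] := ∏ w ∈ S, (Polynomial.X - C w) with hf
  have hfz : f.eval z ≠ 0 := by
    rw [hf, eval_prod]
    refine Finset.prod_ne_zero_iff.mpr fun w hw => ?_
    rw [hS, Finset.mem_erase] at hw
    simp only [eval_sub, eval_X, eval_C]
    exact sub_ne_zero.mpr (Ne.symm hw.1)
  have hf0 : ∀ w ∈ S, f.eval w = 0 := by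
    intro w hw
    rw [hf, eval_prod]
    exact Finset.prod_eq_zero hw (by simp)
  have key : ∀ {K : Type} [Fintype K] (u : K → ℝ), (∀ i, u i ≠ z → u i ∈ S) →
      ∑ i, f.eval (u i) = (univ.filter fun i => u i = z).card * f.eval z := by
    intro K _ u hu
    rw [← Finset.sum_filter_add_sum_filter_not univ (fun i => u i = z)]
    have h1 : ∑ i ∈ univ.filter (fun i => u i = z), f.eval (u i) =
        (univ.filter fun i => u i = z).card * f.eval z := by
      rw [Finset.sum_congr rfl (g := fun _ => f.eval z)
        (fun i hi => by rw [(Finset.mem_filter.mp hi).2])]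
      simp
    have h2 : ∑ i ∈ univ.filter (fun i => ¬ u i = z), f.eval (u i) = 0 := by
      refine Finset.sum_eq_zero fun i hi => ?_
      exact hf0 _ (hu i (Finset.mem_filter.mp hi).2)
    rw [h1, h2, add_zero]
  have hx := key x (fun i hi => by
    rw [hS, Finset.mem_erase]
    exact ⟨hi, Finset.mem_union_left _ (Finset.mem_image_of_mem _ (Finset.mem_univ i))⟩)
  have hy := key y (fun i hi => by
    rw [hS, Finset.mem_erase]
    exact ⟨hi, Finset.mem_union_right _ (Finset.mem_image_of_mem _ (Finset.mem_univ i))⟩)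
  have h3 := sum_eval_eq x y h f
  rw [hx, hy] at h3
  have h4 := mul_right_cancel₀ hfz h3
  exact_mod_cast h4

/-- Hermitian matrices whose powers have equal traces have equal characteristic polynomials. -/
theorem charpoly_eq_of_trace_pow {X X' : Type} [Fintype X] [DecidableEq X] [Fintype X']
    [DecidableEq X'] (A : Matrix X X ℝ) (B : Matrix X' X' ℝ) (hA : A.IsHermitian)
    (hB : B.IsHermitian) (h : ∀ k : ℕ, trace (A ^ k) = trace (B ^ k)) :
    A.charpoly = B.charpoly := by
  rw [hA.charpoly_eq, hB.charpoly_eq]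
  have h1 : ∀ k : ℕ, ∑ i, hA.eigenvalues i ^ k = ∑ j, hB.eigenvalues j ^ k := by
    intro k
    rw [← trace_pow_hermitian, ← trace_pow_hermitian, h k]
  have h2 : (univ.val.map hA.eigenvalues) = (univ.val.map hB.eigenvalues) := by
    classical
    ext z
    rw [Multiset.count_map, Multiset.count_map]
    have := card_fiber_eq _ _ h1 z
    simp only [Finset.card_def, Finset.filter_val] at this
    convert this using 3 <;> exact eq_comm
  have h3 : ∀ {K : Type} [Fintype K] (u : K → ℝ),
      (∏ i, (Polynomial.X - C ((u i : ℝ))) : ℝ[X]) =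
        ((univ.val.map u).map fun t => Polynomial.X - C t).prod := by
    intro K _ u
    rw [Multiset.map_map]
    rfl
  have h4 := h3 hA.eigenvalues
  have h5 := h3 hB.eigenvalues
  simp only [RCLike.ofReal_real_eq_id, id_eq]
  rw [h4, h5, h2]

end Pool.Agent.Helper64.Iso
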