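import Mathlib
import Pool.Agent.Helper64.Iso.Gram
import Pool.Agent.Helper64.Iso.Spectrum
import Pool.Agent.Helper64.Iso.Defs

set_option autoImplicit false

namespace Pool.Agent.Helper64.Iso

open Finset Matrix

section Blocks

variable {X Y : Type} [Fintype X] [Fintype Y] [DecidableEq X] [DecidableEq Y]

/-- traces of powers of a bipartite matrix -/
lemma trace_blocks_even (M : Matrix X Y ℝ) (j : ℕ) :
    (fromBlocks 0 Mᵀ M 0 : Matrix (Y ⊕ X) (Y ⊕ X) ℝ) ^ (2 * j) =
      fromBlocks ((Mᵀ * M) ^ j) 0 0 ((M * Mᵀ) ^ j) := by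
  induction j with
  | zero => simp [fromBlocks_one]
  | succ j ih =>
    rw [mul_add, pow_add, ih, mul_one, pow_two, fromBlocks_multiply, fromBlocks_multiply]
    simp [pow_succ]

lemma trace_blocks (M : Matrix X Y ℝ) (k : ℕ) :
    trace ((fromBlocks 0 Mᵀ M 0 : Matrix (Y ⊕ X) (Y ⊕ X) ℝ) ^ k) =
      if k = 0 then (Fintype.card Y : ℝ) + Fintype.card X
      else if Even k then 2 * trace ((M * Mᵀ) ^ (k / 2)) else 0 := by
  by_cases h0 : k = 0
  · subst h0
    simp
  · rw [if_neg h0]
    by_cases he : Even k
    · rw [if_pos he]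
      obtain ⟨j, hj⟩ := he
      have hj2 : k = 2 * j := by omega
      have hj0 : j ≠ 0 := by omega
      obtain ⟨i, rfl⟩ := Nat.exists_eq_succ_of_ne_zero hj0
      rw [hj2, trace_blocks_even, Nat.mul_div_cancel_left _ (by norm_num : 0 < 2)]
      have h1 : trace ((Mᵀ * M) ^ (i + 1)) = trace ((M * Mᵀ) ^ (i + 1)) := by
        have h2 : ∀ i : ℕ, (Mᵀ * M) ^ (i + 1) = Mᵀ * (M * Mᵀ) ^ i * M := by
          intro i
          induction i with
          | zero => simp
          | succ i ih =>
            rw [pow_succ, ih, pow_succ (M * Mᵀ)]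
            simp only [Matrix.mul_assoc]
        rw [h2, Matrix.mul_assoc, trace_mul_comm, Matrix.mul_assoc, ← pow_succ]
      simp only [trace, diag_apply, Fintype.sum_sum_type, fromBlocks_apply₁₁, fromBlocks_apply₂₂]
      simp only [trace, diag_apply] at h1
      rw [h1]
      ring
    · rw [if_neg he]
      rw [Nat.not_even_iff_odd] at he
      obtain ⟨j, rfl⟩ := he
      rw [pow_succ, trace_blocks_even, fromBlocks_multiply]
      simp [trace]

lemma blocks_hermitian (M : Matrix X Y ℝ) :
    (fromBlocks 0 Mᵀ M 0 : Matrix (Y ⊕ X) (Y ⊕ X) ℝ).IsHermitian := by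
  rw [IsHermitian, fromBlocks_conjTranspose]
  simp [conjTranspose_eq_transpose_of_trivial]

end Blocks

section Scalars

variable {A R : Type} [CommRing A] [CommRing R] [Algebra A R] {E : Type} [AddCommGroup E]
  [Module R E] [Module A E] [IsScalarTower A R E]

/-- submodules over `R` and over `A` are the same when `A → R` is surjective -/
def subA (hs : Function.Surjective (algebraMap A R)) : Submodule R E ≃o Submodule A E where
  toFun V := V.restrictScalars A
  invFun V :=
    { carrier := V
      add_mem' := V.add_mem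
      zero_mem' := V.zero_mem
      smul_mem' := by
        intro c x hx
        obtain ⟨a, rfl⟩ := hs c
        rw [algebraMap_smul]
        exact V.smul_mem a hx }
  left_inv V := rfl
  right_inv V := rfl
  map_rel_iff' := Iff.rfl

lemma free_iff (hs : Function.Surjective (algebraMap A R)) (n : ℕ) (V : Submodule R E) :
    Nonempty (V ≃ₗ[R] (Fin n → R)) ↔ Nonempty ((subA hs V) ≃ₗ[A] (Fin n → R)) := by
  constructor
  · rintro ⟨e⟩
    exact ⟨(e.restrictScalars A : V ≃ₗ[A] (Fin n → R))⟩
  · rintro ⟨e⟩
    let e' : V ≃ₗ[A] (Fin n → R) := e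
    exact ⟨LinearEquiv.extendScalarsOfSurjective hs e'⟩

end Scalars

section OneGraph

variable {A R : Type} [CommRing A] [CommRing R] [Finite R] [Nontrivial R] [Algebra A R]

/-- The vertices split into the two colour classes. -/
noncomputable def splitFun (hs : Function.Surjective (algebraMap A R)) (d m n : ℕ) :
    (Gr (A := A) (Fin d → R) (Fin m → R)) ⊕ (Gr (A := A) (Fin d → R) (Fin n → R)) →
      Vert R d m n :=
  Sum.elim
    (fun V => ⟨(subA hs).symm V.1, Or.inl ((free_iff hs m _).mpr
      (by rw [OrderIso.apply_symm_apply]; exact V.2))⟩)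
    (fun W => ⟨(subA hs).symm W.1, Or.inr ((free_iff hs n _).mpr
      (by rw [OrderIso.apply_symm_apply]; exact W.2))⟩)

omit [Nontrivial R] in
lemma card_of_equiv {d k : ℕ} {V : Submodule A (Fin d → R)} (e : Nonempty (V ≃ₗ[A] (Fin k → R))) :
    Nat.card V = Nat.card R ^ k := by
  obtain ⟨e⟩ := e
  rw [Nat.card_congr e.toEquiv, Nat.card_fun, Nat.card_eq_fintype_card (α := Fin k),
    Fintype.card_fin]

lemma one_lt_card : 1 < Nat.card R := Finite.one_lt_card

omit [Finite R] [Nontrivial R] in
lemma card_lt_of_lt [Finite R] {d : ℕ} {V W : Submodule A (Fin d → R)} (h : V < W) :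
    Nat.card V < Nat.card W :=
  Set.ncard_lt_ncard (show (V : Set (Fin d → R)) ⊂ W from h) (Set.toFinite _)

lemma splitFun_bijective (hs : Function.Surjective (algebraMap A R)) (d m n : ℕ) (hmn : m < n) :
    Function.Bijective (splitFun (A := A) (R := R) hs d m n) := by
  have hne : ∀ (V : Gr (A := A) (Fin d → R) (Fin m → R)) (W : Gr (A := A) (Fin d → R) (Fin n → R)),
      V.1 ≠ W.1 := by
    intro V W h
    have h1 := card_of_equiv V.2
    have h2 := card_of_equiv W.2
    rw [h, h2] at h1
    exact absurd (Nat.pow_right_injective (one_lt_card (R := R)) h1) (by omega)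
  constructor
  · rintro (V | W) (V' | W') h
    · have h1 := congrArg (fun x : Vert R d m n => x.1) h
      have h2 : (subA hs).symm V.1 = (subA hs).symm V'.1 := h1
      rw [Subtype.ext ((subA hs).symm.injective h2)]
    · exfalso
      have h1 := congrArg (fun x : Vert R d m n => x.1) h
      have h2 : (subA hs).symm V.1 = (subA hs).symm W'.1 := h1
      exact hne V W' ((subA hs).symm.injective h2)
    · exfalso
      have h1 := congrArg (fun x : Vert R d m n => x.1) h
      have h2 : (subA hs).symm W.1 = (subA hs).symm V'.1 := h1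
      exact hne V' W ((subA hs).symm.injective h2).symm
    · have h1 := congrArg (fun x : Vert R d m n => x.1) h
      have h2 : (subA hs).symm W.1 = (subA hs).symm W'.1 := h1
      rw [Subtype.ext ((subA hs).symm.injective h2)]
  · rintro ⟨V, hV | hV⟩
    · refine ⟨Sum.inl ⟨subA hs V, (free_iff hs m V).mp hV⟩, ?_⟩
      apply Subtype.ext
      exact (subA hs).symm_apply_apply V
    · refine ⟨Sum.inr ⟨subA hs V, (free_iff hs n V).mp hV⟩, ?_⟩
      apply Subtype.ext
      exact (subA hs).symm_apply_apply V

/-- the incidence matrix -/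
noncomputable def incM (A R : Type) [CommRing A] [CommRing R] [Algebra A R] (d m n : ℕ) :
    Matrix (Gr (A := A) (Fin d → R) (Fin n → R)) (Gr (A := A) (Fin d → R) (Fin m → R)) ℝ :=
  fun W V => inc V.1 W.1

open Classical in
lemma adj_eq (hs : Function.Surjective (algebraMap A R)) (d m n : ℕ) (hmn : m < n) :
    ((incGraph R d m n).adjMatrix ℝ).submatrix (splitFun hs d m n) (splitFun hs d m n) =
      fromBlocks 0 (incM A R d m n)ᵀ (incM A R d m n) 0 := by
  have hlt : ∀ V W : Submodule A (Fin d → R), (subA hs).symm V < (subA hs).symm W ↔ V < W :=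
    fun V W => (subA hs).symm.lt_iff_lt
  have hpow : Nat.card R ^ m < Nat.card R ^ n := Nat.pow_lt_pow_right one_lt_card hmn
  ext x y
  rw [submatrix_apply, SimpleGraph.adjMatrix_apply]
  rcases x with V | W <;> rcases y with V' | W'
  · rw [fromBlocks_apply₁₁, Matrix.zero_apply, if_neg]
    rintro (h | h)
    · have h1 : V.1 < V'.1 := (hlt _ _).mp h
      have h2 := card_lt_of_lt h1
      rw [card_of_equiv V.2, card_of_equiv V'.2] at h2
      exact lt_irrefl _ h2
    · have h1 : V'.1 < V.1 := (hlt _ _).mp h
      have h2 := card_lt_of_lt h1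
      rw [card_of_equiv V.2, card_of_equiv V'.2] at h2
      exact lt_irrefl _ h2
  · rw [fromBlocks_apply₁₂, transpose_apply, incM, inc]
    have : (incGraph R d m n).Adj (splitFun hs d m n (Sum.inl V)) (splitFun hs d m n (Sum.inr W'))
        ↔ V.1 ≤ W'.1 := by
      constructor
      · rintro (h | h)
        · exact ((hlt _ _).mp h).le
        · exfalso
          have h1 : W'.1 < V.1 := (hlt _ _).mp h
          have h2 := card_lt_of_lt h1
          rw [card_of_equiv V.2, card_of_equiv W'.2] at h2
          omega
      · intro h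
        left
        refine (hlt _ _).mpr (lt_of_le_of_ne h ?_)
        intro heq
        have h1 := card_of_equiv V.2
        rw [heq, card_of_equiv W'.2] at h1
        omega
    by_cases h : V.1 ≤ W'.1
    · rw [if_pos (this.mpr h), if_pos h]
    · rw [if_neg (fun h' => h (this.mp h')), if_neg h]
  · rw [fromBlocks_apply₂₁, incM, inc]
    have : (incGraph R d m n).Adj (splitFun hs d m n (Sum.inr W)) (splitFun hs d m n (Sum.inl V'))
        ↔ V'.1 ≤ W.1 := by
      constructor
      · rintro (h | h)
        · exfalso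
          have h1 : W.1 < V'.1 := (hlt _ _).mp h
          have h2 := card_lt_of_lt h1
          rw [card_of_equiv V'.2, card_of_equiv W.2] at h2
          omega
        · exact ((hlt _ _).mp h).le
      · intro h
        right
        refine (hlt _ _).mpr (lt_of_le_of_ne h ?_)
        intro heq
        have h1 := card_of_equiv V'.2
        rw [heq, card_of_equiv W.2] at h1
        omega
    by_cases h : V'.1 ≤ W.1
    · rw [if_pos (this.mpr h), if_pos h]
    · rw [if_neg (fun h' => h (this.mp h')), if_neg h]
  · rw [fromBlocks_apply₂₂, Matrix.zero_apply, if_neg]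
    rintro (h | h)
    · have h1 : W.1 < W'.1 := (hlt _ _).mp h
      have h2 := card_lt_of_lt h1
      rw [card_of_equiv W.2, card_of_equiv W'.2] at h2
      exact lt_irrefl _ h2
    · have h1 : W'.1 < W.1 := (hlt _ _).mp h
      have h2 := card_lt_of_lt h1
      rw [card_of_equiv W.2, card_of_equiv W'.2] at h2
      exact lt_irrefl _ h2

end OneGraph

section Final

variable {A : Type} [CommRing A] [IsDomain A] [IsPrincipalIdealRing A] {π : A}
  {R : Type} [CommRing R] [Finite R] [Nontrivial R] [Algebra A R]
  {A' : Type} [CommRing A'] [IsDomain A'] [IsPrincipalIdealRing A'] {π' : A'}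
  {R' : Type} [CommRing R'] [Finite R'] [Nontrivial R'] [Algebra A' R']

/-- the incidence matrix times its transpose is one of the counting operators -/
lemma incM_mul {r : ℕ} (hπ : Irreducible π) (d m n : ℕ)
    [Fintype (Submodule A (Fin d → R))]
    [Fintype (Gr (A := A) (Fin d → R) (Fin m → R))]
    (hE : IsHom π r (Fin d → R)) (hF : IsHom π r (Fin m → R)) :
    incM A R d m n * (incM A R d m n)ᵀ =
      Cm (E := Fin d → R) π (Fin n → R) (tor π (Fin m → R)) := by
  classical
  ext W W'
  rw [mul_apply]
  simp only [incM, transpose_apply]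
  unfold Cm
  rw [← Finset.sum_subtype (p := fun V : Submodule A (Fin d → R) =>
      Nonempty (V ≃ₗ[A] (Fin m → R)))
    (univ.filter (fun U : Submodule A (Fin d → R) => tor π U = tor π (Fin m → R)))
    (f := fun V => inc V W.1 * inc V W'.1)]
  intro V
  rw [Finset.mem_filter]
  constructor
  · rintro ⟨-, h⟩
    exact iso_of_tor hπ r V _ (kill_sub hE.kill V) hF.kill h
  · rintro ⟨e⟩
    exact ⟨Finset.mem_univ _, tor_congr π e⟩

omit [Finite R] [Nontrivial R] in
lemma charpoly_congr_inst {V : Type} [Fintype V] (G : SimpleGraph V) (d₁ d₂ : DecidableEq V)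
    (r₁ r₂ : DecidableRel G.Adj) :
    @Matrix.charpoly ℝ _ V d₁ _ (@SimpleGraph.adjMatrix ℝ V G r₁ _ _) =
      @Matrix.charpoly ℝ _ V d₂ _ (@SimpleGraph.adjMatrix ℝ V G r₂ _ _) := by
  have h1 : d₁ = d₂ := Subsingleton.elim _ _
  have h2 : r₁ = r₂ := Subsingleton.elim _ _
  rw [h1, h2]

/-- The general isospectrality theorem. -/
theorem general (hπ : Irreducible π) (hπ' : Irreducible π')
    (hq : Nat.card (cyc π 1) = Nat.card (cyc π' 1)) (hq0 : Nat.card (cyc π' 1) ≠ 0)
    (r : ℕ) (hr : 1 ≤ r) (hs : Function.Surjective (algebraMap A R))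
    (hs' : Function.Surjective (algebraMap A' R')) (eR : R ≃ₗ[A] cyc π r)
    (eR' : R' ≃ₗ[A'] cyc π' r) (d m n : ℕ) (hmn : m < n) :
    Isospectral (incGraph R d m n) (incGraph R' d m n) := by
  classical
  have : Fintype (Submodule A (Fin d → R)) := Fintype.ofFinite _
  have : Fintype (Submodule A' (Fin d → R')) := Fintype.ofFinite _
  have : Fintype (Gr (A := A) (Fin d → R) (Fin n → R)) := Fintype.ofFinite _
  have : Fintype (Gr (A := A) (Fin d → R) (Fin m → R)) := Fintype.ofFinite _
  have : Fintype (Gr (A := A') (Fin d → R') (Fin n → R')) := Fintype.ofFinite _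
  have : Fintype (Gr (A := A') (Fin d → R') (Fin m → R')) := Fintype.ofFinite _
  have : Finite (Submodule R (Fin d → R)) := inferInstance
  have : Finite (Submodule R' (Fin d → R')) := inferInstance
  let i1 : Fintype (Vert R d m n) := Fintype.ofFinite _
  let i2 : Fintype (Vert R' d m n) := Fintype.ofFinite _
  refine ⟨i1, i2, ?_⟩
  have hom1 : ∀ k, IsHom π r (Fin k → R) := fun k =>
    (isHom_pi hπ hr k).congr (LinearEquiv.piCongrRight fun _ => eR.symm)
  have hom2 : ∀ k, IsHom π' r (Fin k → R') := fun k =>
    (isHom_pi hπ' hr k).congr (LinearEquiv.piCongrRight fun _ => eR'.symm)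
  have htor : ∀ k, tor π (Fin k → R) = tor π' (Fin k → R') := by
    intro k
    funext j
    rw [tor_pi, tor_pi]
    refine Finset.prod_congr rfl fun i _ => ?_
    rw [tor_congr π eR, tor_congr π' eR', tor_cyc hπ, tor_cyc hπ', hq]
  have H : ∀ k, Twin π π' r (Fin d → R) (Fin k → R) (Fin d → R') (Fin k → R') := fun k =>
    { irr := hπ, irr' := hπ', hr := hr, hq := hq, hq0 := hq0, hE := hom1 d, hF := hom1 k,
      hE' := hom2 d, hF' := hom2 k, torE := htor d, torF := htor k }
  let θ := Equiv.ofBijective _ (splitFun_bijective (A := A) (R := R) hs d m n hmn)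
  let θ' := Equiv.ofBijective _ (splitFun_bijective (A := A') (R := R') hs' d m n hmn)
  have e1 : ((incGraph R d m n).adjMatrix ℝ).charpoly =
      (fromBlocks 0 (incM A R d m n)ᵀ (incM A R d m n) 0).charpoly := by
    rw [← charpoly_reindex θ.symm, ← adj_eq hs d m n hmn]
    rfl
  have e2 : ((incGraph R' d m n).adjMatrix ℝ).charpoly =
      (fromBlocks 0 (incM A' R' d m n)ᵀ (incM A' R' d m n) 0).charpoly := by
    rw [← charpoly_reindex θ'.symm, ← adj_eq hs' d m n hmn]
    rfl
  have e3 : (fromBlocks 0 (incM A R d m n)ᵀ (incM A R d m n) 0).charpoly =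
      (fromBlocks 0 (incM A' R' d m n)ᵀ (incM A' R' d m n) 0).charpoly := by
    apply charpoly_eq_of_trace_pow _ _ (blocks_hermitian _) (blocks_hermitian _)
    intro k
    rw [trace_blocks, trace_blocks]
    by_cases h0 : k = 0
    · rw [if_pos h0, if_pos h0]
      have c1 := (H m).card_gr
      have c2 := (H n).card_gr
      rw [Nat.card_eq_fintype_card, Nat.card_eq_fintype_card] at c1 c2
      rw [c1, c2]
    · rw [if_neg h0, if_neg h0]
      by_cases he : Even k
      · rw [if_pos he, if_pos he]
        obtain ⟨j, hj⟩ := he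
        have hk : k / 2 = (j - 1) + 1 := by omega
        rw [hk, incM_mul hπ d m n (hom1 d) (hom1 m), incM_mul hπ' d m n (hom2 d) (hom2 m),
          ← htor m]
        congr 1
        apply (H n).trace_pow
        -- R^m embeds in R^n
        let f : (Fin m → R) →ₗ[A] (Fin n → R) :=
          { toFun := fun x i => if h : i.1 < m then x ⟨i.1, h⟩ else 0
            map_add' := by
              intro x y
              funext i
              by_cases h : i.1 < m <;> simp [h]
            map_smul' := by
              intro c x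
              funext i
              by_cases h : i.1 < m <;> simp [h] }
        have hf : Function.Injective f := by
          intro x y hxy
          funext i
          have h1 := congrFun hxy ⟨i.1, lt_trans i.2 hmn⟩
          simpa [f] using h1
        exact ⟨LinearMap.range f, (tor_congr π (LinearEquiv.ofInjective f hf)).symm⟩
      · rw [if_neg he, if_neg he]
  have e4 : ((incGraph R d m n).adjMatrix ℝ).charpoly =
      ((incGraph R' d m n).adjMatrix ℝ).charpoly := by rw [e1, e2, e3]
  exact (charpoly_congr_inst (incGraph R d m n) _ _ _ _).trans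
    (e4.trans (charpoly_congr_inst (incGraph R' d m n) _ _ _ _))

end Final

end Pool.Agent.Helper64.Iso
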